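import Pool.Agent.SQ.A.Mackey

/-!
# SQ/A: the module induced from a normal subgroup whose finitely generated subgroups embed in Poincare duality groups

`N` is a normal subgroup of `K`, locally indicable, with a skew field over the field with two elements in which all pairs are
independent, such that every finitely generated subgroup of `N` is isomorphic to a subgroup of a Poincare duality group of dimension
`n`.  Then `H_i(K; Ind_N^K D) = 0` for `2 * i > n`.
-/

set_option autoImplicit false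

open scoped TensorProduct

noncomputable section

namespace SQ.A

open Singer Singer.Ord SQ.T3 SQ.HH SQ.BO

/-- a subgroup of `N` which embeds in a Poincare duality group of dimension `n` -/
theorem hv_of_emb {P L N : Type} [Group P] [Group L] [Group N] {n : ℕ} (hP : IsPD n P) (f : L →* P)
    (hf : Function.Injective f) (a : L →* N) (ha : Function.Injective a)
    (hLI : ∀ S : Subgroup N, S.FG → S ≠ ⊥ → ∃ (M : Subgroup N) (t : N), ZP S M t)
    {D : Type} [DivisionRing D] [Algebra (ZMod 2) D] (ρ : N →* Dˣ) (hI : AllInd ρ) {K : Type} [Group K] (l : L →* K)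
    (hl : Function.Injective l) (R : FinRes K) (k : ℕ) (hk : n < 2 * (k + 1)) : HV l (lmul (ρ.comp a)) R k := by
  obtain ⟨S⟩ := exists_finRes_of_isPD hP
  let L' : Subgroup P := f.range
  let e : L ≃* L' := MonoidHom.ofInjective hf
  let τ' : Representation (ZMod 2) L' D := lmul ((ρ.comp a).comp e.symm.toMonoidHom)
  have h1 : ∀ j, HV (MonoidHom.id P) ((indr τ').tprod (indr τ')) S j := by
    intro j
    refine mackey P L' _ τ' S j fun M b c hb hc => ?_
    exact pair_of_ind hLI ρ hI ((a.comp e.symm.toMonoidHom).comp b) ((a.comp e.symm.toMonoidHom).comp c)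
      ((ha.comp e.symm.injective).comp hb) ((ha.comp e.symm.injective).comp hc) M.subtype M.subtype_injective S j
  have h2 : ∀ j, j < n → Ex ((indr τ').tprod (indr τ')) S j := by
    intro j hj
    refine (pd _ n hP S).1 j hj.le ?_
    obtain ⟨k, hk⟩ : ∃ k, n - j = k + 1 := ⟨n - j - 1, by omega⟩
    rw [hk]
    exact (hv_iff_exH P _ _ S k).1 (h1 k)
  have h3 : ∀ m, 2 * m < n → Ex (indr τ') S m := fun m hm =>
    lem P (noInv P n hP) S _ _ m fun j hj => h2 j (by omega)
  have h4 : ExH (indr τ') S (k + 1) := by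
    by_cases hin : k + 1 ≤ n
    · have h5 := ((pd_iff (indr τ') n hP S).1 (n - (k + 1)) (by omega)).1 (h3 (n - (k + 1)) (by omega))
      rwa [show n - (n - (k + 1)) = k + 1 by omega] at h5
    · exact (pd_iff (indr τ') n hP S).2.2 (k + 1) (by omega)
  have h5 : HV L'.subtype τ' S k := shapiro P L' _ τ' S k ((hv_iff_exH P _ _ S k).2 h4)
  -- the same with `L` in place of its image
  have h6 : HV (L'.subtype.comp e.toMonoidHom) (lmul (ρ.comp a)) S k := by
    intro c hc
    have hI' : ∀ α : Type, Ivl (L'.subtype.comp e.toMonoidHom) (lmul (ρ.comp a)) α = Ivl L'.subtype τ' α := by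
      intro α
      refine congrArg (Submodule.span (ZMod 2)) (Set.ext fun z => ?_)
      constructor
      · rintro ⟨g, x, rfl⟩
        refine ⟨e g, x, ?_⟩
        have h7 : τ' (e g) = lmul (ρ.comp a) g := by
          show lmul (ρ.comp a) (e.symm (e g)) = lmul (ρ.comp a) g
          rw [e.symm_apply_apply]
        show sgl _ (lmul (ρ.comp a)) α g x - x = TensorProduct.map (Acr.lam α (L'.subtype (e g))) (τ' (e g)) x - x
        rw [h7]
        rfl
      · rintro ⟨g, x, rfl⟩
        refine ⟨e.symm g, x, ?_⟩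
        show TensorProduct.map (Acr.lam α (L'.subtype g)) (τ' g) x - x =
          TensorProduct.map (Acr.lam α (L'.subtype (e (e.symm g)))) (lmul (ρ.comp a) (e.symm g)) x - x
        rw [e.apply_symm_apply]
        rfl
    rw [hI'] at hc
    obtain ⟨x, hx⟩ := h5 c hc
    refine ⟨x, ?_⟩
    rw [hI']
    exact hx
  have h7 : Function.Injective (L'.subtype.comp e.toMonoidHom) := fun x y h => e.injective (L'.subtype_injective h)
  exact cmp2 _ h7 l hl _ S R k h6

section loc
variable {N K : Type} [Group N] [Group K] (l : N →* K) {Y : Type} [AddCommGroup Y] [Module (ZMod 2) Y]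
  (τ : Representation (ZMod 2) N Y)

/-- the differences for the elements of a subgroup -/
def IvS (S : Subgroup N) (α : Type) : Submodule (ZMod 2) ((α → MonoidAlgebra (ZMod 2) K) ⊗[ZMod 2] Y) :=
  Submodule.span (ZMod 2) {z | ∃ (g : N) (_ : g ∈ S) (x : (α → MonoidAlgebra (ZMod 2) K) ⊗[ZMod 2] Y), z = sgl l τ α g x - x}

theorem IvS_mono {S S' : Subgroup N} (h : S ≤ S') (α : Type) : IvS l τ S α ≤ IvS l τ S' α := by
  refine Submodule.span_mono ?_
  rintro _ ⟨g, hg, x, rfl⟩
  exact ⟨g, h hg, x, rfl⟩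

theorem IvS_le (S : Subgroup N) (α : Type) : IvS l τ S α ≤ Ivl l τ α := by
  refine Submodule.span_mono ?_
  rintro _ ⟨g, _, x, rfl⟩
  exact ⟨g, x, rfl⟩

theorem exists_fg {α : Type} {z : (α → MonoidAlgebra (ZMod 2) K) ⊗[ZMod 2] Y} (hz : z ∈ Ivl l τ α) :
    ∃ S : Subgroup N, S.FG ∧ z ∈ IvS l τ S α := by
  refine Submodule.span_induction (p := fun z _ => ∃ S : Subgroup N, S.FG ∧ z ∈ IvS l τ S α) ?_ ?_ ?_ ?_ hz
  · rintro _ ⟨g, x, rfl⟩
    refine ⟨Subgroup.zpowers g, ⟨{g}, by rw [Finset.coe_singleton, Subgroup.zpowers_eq_closure]⟩, ?_⟩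
    exact Submodule.subset_span ⟨g, Subgroup.mem_zpowers g, x, rfl⟩
  · exact ⟨⊥, ⟨∅, by rw [Finset.coe_empty, Subgroup.closure_empty]⟩, zero_mem _⟩
  · rintro x y _ _ ⟨S, hS, hx⟩ ⟨S', hS', hy⟩
    exact ⟨S ⊔ S', hS.sup hS', add_mem (IvS_mono l τ le_sup_left α hx) (IvS_mono l τ le_sup_right α hy)⟩
  · rintro c x _ ⟨S, hS, hx⟩
    exact ⟨S, hS, Submodule.smul_mem _ _ hx⟩

/-- **directed unions** -/
theorem hv_of_fg (R : FinRes K) (k : ℕ)
    (H : ∀ S : Subgroup N, S.FG → HV (l.comp S.subtype) (τ.comp S.subtype : Representation (ZMod 2) S Y) R k) :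
    HV l τ R k := by
  intro c hc
  obtain ⟨S, hS, hcS⟩ := exists_fg l τ hc
  have h1 : ∀ α : Type, Ivl (l.comp S.subtype) (τ.comp S.subtype : Representation (ZMod 2) S Y) α = IvS l τ S α := by
    intro α
    refine congrArg (Submodule.span (ZMod 2)) (Set.ext fun z => ?_)
    constructor
    · rintro ⟨g, x, rfl⟩
      exact ⟨g, g.2, x, rfl⟩
    · rintro ⟨g, hg, x, rfl⟩
      exact ⟨⟨g, hg⟩, x, rfl⟩
  obtain ⟨e, he⟩ := H S hS c (by rw [h1]; exact hcS)
  rw [h1] at he
  exact ⟨e, IvS_le l τ S _ he⟩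

end loc

/-- **the vanishing of the homology of the induced module**, for a normal subgroup whose finitely generated subgroups are isomorphic
to subgroups of Poincare duality groups of dimension `n` -/
theorem exH_indr_of_loc {K : Type} [Group K] {n : ℕ} (N : Subgroup K) [N.Normal]
    (hP : ∀ S : Subgroup N, S.FG → ∃ (P : Type) (_ : Group P) (f : S →* P), IsPD n P ∧ Function.Injective f)
    (hLI : ∀ S : Subgroup N, S.FG → S ≠ ⊥ → ∃ (M : Subgroup N) (t : N), ZP S M t)
    {D : Type} [DivisionRing D] [Algebra (ZMod 2) D] (ρ : N →* Dˣ) (hI : AllInd ρ) (R : FinRes K) (i : ℕ)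
    (hi : n < 2 * i) : ExH (indr (lmul ρ)) R i := by
  obtain ⟨k, rfl⟩ : ∃ k, i = k + 1 := ⟨i - 1, by omega⟩
  refine (hv_iff_exH K _ _ R k).1 (HV_indr_of_normal N (lmul ρ) R k fun l hl => hv_of_fg l (lmul ρ) R k fun S hS => ?_)
  obtain ⟨P, _, f, hn, hf⟩ := hP S hS
  exact hv_of_emb hn f hf S.subtype S.subtype_injective hLI ρ hI (l.comp S.subtype)
    (hl.comp S.subtype_injective) R k hi

end SQ.A
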