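import Pool.Agent.SQ.A.Twist
import Pool.Agent.SQ.U.Frac

/-!
# SQ/A: the automorphisms of the residue skew field of a coefficient ring
-/

set_option autoImplicit false

noncomputable section

namespace SQ.A

open SQ.U

/-- the conjugations of a normal subgroup act on the residue skew field of its coefficient ring -/
theorem exists_tw {K : Type} [Group K] (N : Subgroup K) [N.Normal] (C : Coef N) {D : Type} [DivisionRing D]
    (π : C.R →+* D) (hs : Function.Surjective π) (hπ : ∀ x, π x = 0 ↔ ∃ y, x = 2 * y) :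
    Nonempty (Tw (K := K) ((Units.map (π : C.R →* D)).comp C.l)) := by
  have hex : ∀ u : K, ∃ f : D →+* D, ∀ x, f (π x) = π (C.act (MulAut.conjNormal u) x) := by
    intro u
    let g : C.R →+* D := π.comp ((C.act (MulAut.conjNormal u) : C.R ≃+* C.R) : C.R →+* C.R)
    have hg : ∀ x, g x = π (C.act (MulAut.conjNormal u) x) := fun _ => rfl
    have hker : RingHom.ker π ≤ RingHom.ker g := by
      intro x hx
      rw [RingHom.mem_ker] at hx ⊢
      obtain ⟨y, rfl⟩ := (hπ x).1 hx
      rw [hg, map_mul, map_ofNat]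
      exact (hπ _).2 ⟨_, rfl⟩
    refine ⟨π.liftOfSurjective hs ⟨g, hker⟩, fun x => ?_⟩
    rw [← hg]
    exact RingHom.liftOfRightInverse_comp_apply π _ _ ⟨g, hker⟩ x
  choose φ hφ using hex
  refine ⟨⟨φ, fun d => ?_, fun u v d => ?_, fun u n n' h => ?_⟩⟩
  · obtain ⟨x, rfl⟩ := hs d
    rw [hφ, map_one, map_one]
    rfl
  · obtain ⟨x, rfl⟩ := hs d
    rw [hφ, hφ, hφ, map_mul, map_mul]
    rfl
  · show φ u (π ((C.l n : C.Rˣ) : C.R)) = π ((C.l n' : C.Rˣ) : C.R)
    have h1 : MulAut.conjNormal u n = n' := Subtype.ext (by rw [MulAut.conjNormal_apply, h])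
    rw [hφ, C.act_l, h1]

end SQ.A
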