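import Pool.Agent.SQ.A.ExH
import Pool.Agent.SQ.A.TwCoef
import Pool.Agent.SQ.A.Loc
import Pool.Agent.SQ.U.NT
import Pool.Agent.SQ.HH.L2Dual
import Pool.Agent.SQ.V.Stmt

/-!
# SQ/A: the vanishing theorem for the extensions by amenable groups
-/

set_option autoImplicit false

noncomputable section

namespace SQ.A

open Singer SQ.U SQ.T3 SQ.BO Module
open Pool.Agent.Helper18.SQ (lm cok cA sA cok_eq_solL solD_eq)

/-- the left form of Foelner's condition -/
theorem lfoe {Q : Type} [Group Q] (h : SQ.V.Amenable Q) : LFoe Q := by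
  classical
  intro L m
  obtain ⟨F, hF, hS⟩ := h (L.image fun x => x⁻¹) m
  refine ⟨F.map (Equiv.inv Q).toEmbedding, hF.map, fun l hl => ?_⟩
  have h1 := hS l⁻¹ (Finset.mem_image_of_mem _ hl)
  rw [Finset.card_map]
  refine le_trans (Nat.mul_le_mul_left _ ?_) h1
  refine Finset.card_le_card_of_injOn (fun x => x⁻¹) (fun x hx => ?_) (fun x _ y _ hxy => inv_injective hxy)
  obtain ⟨h2, h3⟩ := Finset.mem_filter.1 (Finset.mem_coe.1 hx)
  obtain ⟨y, hy, rfl⟩ := Finset.mem_map.1 h2
  refine Finset.mem_coe.2 (Finset.mem_filter.2 ⟨?_, fun h4 => h3 ?_⟩)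
  · show (y⁻¹)⁻¹ ∈ F
    rwa [inv_inv]
  · refine Finset.mem_map.2 ⟨_, h4, ?_⟩
    show ((y⁻¹)⁻¹ * l⁻¹)⁻¹ = l * y⁻¹
    group

/-- the finitely generated subgroups of `N` are isomorphic to subgroups of Poincare duality groups of dimension `n` -/
def LocPD (n : ℕ) (N : Type) [Group N] : Prop :=
  ∀ S : Subgroup N, S.FG → ∃ (P : Type) (_ : Group P) (f : S →* P), IsPD n P ∧ Function.Injective f

theorem locPD_of_emb {P N : Type} [Group P] [Group N] {n : ℕ} (hP : IsPD n P) (f : N →* P) (hf : Function.Injective f) :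
    LocPD n N := fun S _ => ⟨P, inferInstance, f.comp S.subtype, hP, hf.comp S.subtype_injective⟩

/-- **Theorem A**: `K` is a group with a normal subgroup `N` with the property `P` and an amenable quotient, the finitely generated
subgroups of `N` are isomorphic to subgroups of Poincare duality groups of dimension `n`; then the `ℓ²`-homology of `K` vanishes in the
degrees `i > n / 2` -/
theorem vanE_amen {K : Type} [Group K] {n : ℕ} (N : Subgroup K) [N.Normal] (hP : LocPD n N) (hN : SQ.U.P N)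
    (hA : SQ.V.Amenable (K ⧸ N)) (R : FinRes K) (i : ℕ) (hi : n < 2 * i) : R.VanE i := by
  obtain ⟨C⟩ := stmtCoef N hN
  obtain ⟨F, iF, iC, j, hj, -⟩ := C.toW.exists_F
  obtain ⟨D, iD, iA, π, hπs, hπ⟩ := C.toW.exists_D
  have hu : ∀ x, π x ≠ 0 → IsUnit x := fun x hx => (C.half x).resolve_right fun h => hx ((hπ x).2 h)
  have hloc : T5.Loc (C.toW.up π) (C.toW.up j) := fun S hS hne => by
    obtain ⟨M, t, hz⟩ := hN.lz S hS hne
    exact ⟨M, t, hz, C.toW.ind_D hπ M t hz.inf, C.toW.ind_F hj M t hz.inf⟩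
  have h1 : T5.Loc (C.toW.up j) (C.toW.up j) := loc_right hloc
  obtain ⟨T⟩ := exists_tw N C π hπs hπ
  have hU : ∀ {κ ι : Type} [Fintype κ] [Fintype ι] (A : Matrix κ ι (MonoidAlgebra ℤ N)),
      vdim (cok A) ≤ finrank Dᵐᵒᵖ (LinearMap.ker (cbD (C.toW.up π) A)) := by
    intro κ ι _ _ A
    have h2 := vdim_le_loc π hu hπs j C.toW.l (C.toW.up π) (C.toW.up j) (fun _ => rfl) (fun _ => rfl)
      (fun X hX hX' => lin_of_fam (ev_injective (C.toW.up j) (allCos_of_loc h1 ⊥ ⊤ bot_le)) (fam_of_loc h1 hX hX'))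
      (cA A) (sA A) (cok A) (cok_eq_solL A)
    have h3 := solD_eq (fun n : N => lm ((C.toW.up π n : Dˣ) : D)) A
    rw [h3] at h2
    exact h2
  obtain ⟨k, rfl⟩ : ∃ k, i = k + 1 := ⟨i - 1, by omega⟩
  exact vanE_of_exH T hU (lfoe hA) R k
    (exH_indr_of_loc N hP hN.lz (C.toW.up π) (allCos_of_loc (loc_left hloc)).allInd R (k + 1) hi)

section virt
variable {Γ : Type} [Group Γ] (H : Subgroup Γ) [H.FiniteIndex] (N : Subgroup H) [N.Normal] (hN : SQ.U.P N)
  (hA : SQ.V.Amenable (H ⧸ N))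

include hN hA in
/-- the same for an overgroup of finite index -/
theorem vanE_virtual {n : ℕ} (hP : LocPD n N) (R : FinRes Γ) (i : ℕ) (hi : n < 2 * i) : R.VanE i :=
  FinRes.vanE_of_index H (fun R' => vanE_amen N hP hN hA R' i hi) R

include hN hA in
/-- Poincare duality groups of another dimension, below the middle dimension -/
theorem vanE_virtual_low {n : ℕ} (hP : LocPD n N) {m : ℕ} (hm : IsPD m Γ ∨ IsPD m H) (R : FinRes Γ) (i : ℕ)
    (hi : 2 * i + n < 2 * m) : R.VanE i := by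
  have hH : IsPD m H := hm.elim (fun h => h.of_finiteIndex H) id
  refine FinRes.vanE_of_index H (fun R' => ?_) R
  exact ((l2_dual R' hH).1 (m - i) i (by omega)).1 (vanE_amen N hP hN hA R' (m - i) (by omega))

include hN hA in
/-- Poincare duality groups -/
theorem vanE_virtual_pd {n : ℕ} (hn : IsPD n Γ ∨ IsPD n H) (R : FinRes Γ) (i : ℕ) (hi : 2 * i ≠ n) : R.VanE i := by
  have hP : LocPD n N := locPD_of_emb (hn.elim (fun h => h.of_finiteIndex H) id) N.subtype N.subtype_injective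
  rcases lt_or_gt_of_ne hi with h2 | h2
  · exact vanE_virtual_low H N hN hA hP hn R i (by omega)
  · exact vanE_virtual H N hN hA hP R i h2

end virt

end SQ.A
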