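import Pool.Agent.SQ.A.Sys

/-!
# SQ/A: the action of a matrix over the group ring on the module induced from a skew field
-/

set_option autoImplicit false
set_option linter.unusedSectionVars false

noncomputable section

namespace SQ.A

open Singer Singer.Ord Module
open Pool.Agent.Helper18.SQ (lm cok supps mem_supps finrank_col)
open SQ.HH (coc)

section ext
variable {K : Type} [Group K] {N : Subgroup K} {D : Type} [DivisionRing D] {ι : Type}

/-- extension by zero -/
def ext (F : Finset (K ⧸ N)) (y : F × ι → D) (q : K ⧸ N) (i : ι) : D :=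
  open Classical in if h : q ∈ F then y (⟨q, h⟩, i) else 0

theorem ext_mem (F : Finset (K ⧸ N)) (y : F × ι → D) (q : F) (i : ι) : ext F y q i = y (q, i) := by
  unfold ext
  rw [dif_pos q.2]

theorem ext_notMem (F : Finset (K ⧸ N)) (y : F × ι → D) {q : K ⧸ N} (hq : q ∉ F) : ext F y q = 0 := by
  funext i
  unfold ext
  rw [dif_neg hq]
  rfl

/-- extension by zero, the linear map -/
def extL (D : Type) [DivisionRing D] (ι : Type) (F : Finset (K ⧸ N)) : (F × ι → D) →ₗ[Dᵐᵒᵖ] (K ⧸ N →₀ (ι → D)) where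
  toFun y := Finsupp.onFinset F (ext F y) (by
    intro q hq
    by_contra h
    exact hq (ext_notMem F y h))
  map_add' y z := by
    ext q i
    show ext F (y + z) q i = ext F y q i + ext F z q i
    unfold ext
    split_ifs
    · rfl
    · rw [add_zero]
  map_smul' a y := by
    ext q i
    show ext F (a • y) q i = a • ext F y q i
    unfold ext
    split_ifs
    · rfl
    · rw [smul_zero]

theorem extL_apply (F : Finset (K ⧸ N)) (y : F × ι → D) (q : K ⧸ N) : extL D ι F y q = ext F y q := rfl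

theorem extL_injective (F : Finset (K ⧸ N)) : Function.Injective (extL D ι F) := by
  intro y z h
  funext ⟨q, i⟩
  have h1 : extL D ι F y q i = extL D ι F z q i := by rw [h]
  rwa [extL_apply, extL_apply, ext_mem, ext_mem] at h1

end ext

section act
variable {K : Type} [Group K] {N : Subgroup K} {D : Type} [DivisionRing D] (σ : N →* Dˣ)
  {κ ι : Type} [Fintype κ] [Fintype ι]

/-- the value of the matrix `A` on the function `y` -/
def tf (A : Matrix κ ι (MonoidAlgebra ℤ K)) (y : K ⧸ N → ι → D) (p : K ⧸ N) (k : κ) : D :=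
  ∑ i, ∑ x ∈ (A k i).coeff.support, (A k i).coeff x • (((σ (coc N x (x⁻¹ • p)) : Dˣ) : D) * y (x⁻¹ • p) i)

theorem tf_eq_zero (A : Matrix κ ι (MonoidAlgebra ℤ K)) (y : K ⧸ N → ι → D) (p : K ⧸ N)
    (h : ∀ x ∈ supps A, y (x⁻¹ • p) = 0) : tf σ A y p = 0 := by
  funext k
  refine Finset.sum_eq_zero fun i _ => Finset.sum_eq_zero fun x hx => ?_
  rw [h x (mem_supps A hx), Pi.zero_apply, mul_zero, smul_zero]

open Classical in
/-- the action of the matrix `A` on the induced module -/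
def TA (A : Matrix κ ι (MonoidAlgebra ℤ K)) : (K ⧸ N →₀ (ι → D)) →ₗ[Dᵐᵒᵖ] (K ⧸ N →₀ (κ → D)) where
  toFun y := Finsupp.onFinset ((supps A ×ˢ y.support).image fun z => z.1 • z.2) (tf σ A y) (by
    intro p hp
    by_contra hne
    refine hp (tf_eq_zero σ A y p fun x hx => ?_)
    by_contra h0
    exact hne (Finset.mem_image.2 ⟨(x, x⁻¹ • p), Finset.mem_product.2 ⟨hx, Finsupp.mem_support_iff.2 h0⟩,
      smul_inv_smul x p⟩))
  map_add' y z := by
    ext p k
    show tf σ A (⇑(y + z)) p k = tf σ A y p k + tf σ A z p k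
    simp only [tf, Finsupp.add_apply, Pi.add_apply, mul_add, smul_add, Finset.sum_add_distrib]
  map_smul' a y := by
    ext p k
    show tf σ A (⇑(a • y)) p k = a • tf σ A y p k
    simp only [tf, Finsupp.smul_apply, Pi.smul_apply, Finset.smul_sum]
    refine Finset.sum_congr rfl fun i _ => Finset.sum_congr rfl fun x _ => ?_
    show (A k i).coeff x • (((σ (coc N x (x⁻¹ • p)) : Dˣ) : D) * (y (x⁻¹ • p) i * a.unop)) =
      ((A k i).coeff x • (((σ (coc N x (x⁻¹ • p)) : Dˣ) : D) * y (x⁻¹ • p) i)) * a.unop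
    rw [smul_mul_assoc, mul_assoc]

theorem TA_apply (A : Matrix κ ι (MonoidAlgebra ℤ K)) (y : K ⧸ N →₀ (ι → D)) (p : K ⧸ N) :
    TA σ A y p = tf σ A y p := rfl

theorem mem_Zk {V W : Type} {Q : Type} [Group Q] [AddCommGroup V] [Module Dᵐᵒᵖ V] [AddCommGroup W] [Module Dᵐᵒᵖ W]
    (T : (Q →₀ V) →ₗ[Dᵐᵒᵖ] W) (F : Finset Q) (y : Q →₀ V) : y ∈ Zk T F ↔ T y = 0 ∧ ∀ q ∉ F, y q = 0 := by
  rw [Zk, Submodule.mem_inf, LinearMap.mem_ker, Finsupp.mem_supported']
  rfl

/-- the coboundary operator of a matrix over the group ring of the subgroup -/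
def cbD {κ ι : Type} [Fintype ι] (σ : N →* Dˣ) (A : Matrix κ ι (MonoidAlgebra ℤ N)) : (ι → D) →ₗ[Dᵐᵒᵖ] (κ → D) :=
  Pool.Agent.Helper18.SQ.cobd (fun n => lm ((σ n : Dˣ) : D)) A

theorem cbD_apply {κ ι : Type} [Fintype ι] (A : Matrix κ ι (MonoidAlgebra ℤ N)) (y : ι → D) (k : κ) :
    cbD σ A y k = ∑ i, ∑ x ∈ (A k i).coeff.support, (A k i).coeff x • (((σ x : Dˣ) : D) * y i) := rfl

/-- the system on the cosets of `F` -/
theorem cobd_sysF (A : Matrix κ ι (MonoidAlgebra ℤ K)) (G F : Finset (K ⧸ N)) (y : F × ι → D) (p : G) (k : κ) :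
    cbD σ (sysF N A G F) y (p, k) = TA σ A (extL D ι F y) p k := by
  rw [cbD_apply, Fintype.sum_prod_type_right, TA_apply, tf]
  refine Finset.sum_congr rfl fun i _ => ?_
  have h1 := sum_cpt N (p : K ⧸ N) (A k i) F
    (fun x => ((σ (coc N x (x⁻¹ • (p : K ⧸ N))) : Dˣ) : D) * extL D ι F y (x⁻¹ • (p : K ⧸ N)) i) (fun x _ hx => by
      by_contra h
      apply hx
      show _ * extL D ι F y (x⁻¹ • (p : K ⧸ N)) i = 0
      rw [extL_apply, ext_notMem F y h, Pi.zero_apply, mul_zero])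
  rw [← h1]
  refine Finset.sum_congr rfl fun q _ => Finset.sum_congr rfl fun m _ => ?_
  have h2 := cpt_smul N (p : K ⧸ N) (q : K ⧸ N) m
  have h3 : coc N (Quotient.out (p : K ⧸ N) * (m : K) * (Quotient.out (q : K ⧸ N))⁻¹) (q : K ⧸ N) = m := by
    apply Subtype.ext
    show (Quotient.out ((Quotient.out (p : K ⧸ N) * (m : K) * (Quotient.out (q : K ⧸ N))⁻¹) • (q : K ⧸ N)))⁻¹ *
      ((Quotient.out (p : K ⧸ N) * (m : K) * (Quotient.out (q : K ⧸ N))⁻¹) * Quotient.out (q : K ⧸ N)) = m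
    rw [← inv_smul_eq_iff.1 h2]
    group
  show (cpt N (p : K ⧸ N) (q : K ⧸ N) (A k i)).coeff m • (((σ m : Dˣ) : D) * y (q, i)) = _
  rw [h2, h3, extL_apply, ext_mem]

end act

section dim
variable {K : Type} [Group K] {N : Subgroup K} {D : Type} [DivisionRing D] (σ : N →* Dˣ)
  {κ ι : Type} [Fintype κ] [Fintype ι]

instance finDim_Zk {W : Type} [AddCommGroup W] [Module Dᵐᵒᵖ W] [N.Normal] (T : (K ⧸ N →₀ (ι → D)) →ₗ[Dᵐᵒᵖ] W)
    (F : Finset (K ⧸ N)) : FiniteDimensional Dᵐᵒᵖ (Zk T F) := by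
  let R : Zk T F →ₗ[Dᵐᵒᵖ] (F → ι → D) :=
    { toFun := fun y q => (y : K ⧸ N →₀ (ι → D)) q
      map_add' := fun _ _ => rfl
      map_smul' := fun _ _ => rfl }
  refine FiniteDimensional.of_injective R fun y z h => ?_
  apply Subtype.ext
  apply Finsupp.ext
  intro q
  by_cases hq : q ∈ F
  · exact congrFun h ⟨q, hq⟩
  · rw [((mem_Zk T F _).1 y.2).2 q hq, ((mem_Zk T F _).1 z.2).2 q hq]

open Classical in
/-- the positions of the equations which involve the positions in `F` -/
def nb (A : Matrix κ ι (MonoidAlgebra ℤ K)) (F : Finset (K ⧸ N)) : Finset (K ⧸ N) :=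
  (supps A ×ˢ F).image fun z => z.1 • z.2

open Classical in
/-- the positions of the equations which involve only the positions in `F` -/
def inn (A : Matrix κ ι (MonoidAlgebra ℤ K)) (F : Finset (K ⧸ N)) : Finset (K ⧸ N) :=
  (nb A F).filter fun p => ∀ x ∈ supps A, x⁻¹ • p ∈ F

theorem TA_notMem_nb (A : Matrix κ ι (MonoidAlgebra ℤ K)) (F : Finset (K ⧸ N)) (y : F × ι → D) {p : K ⧸ N}
    (hp : p ∉ nb A F) : TA σ A (extL D ι F y) p = 0 := by
  classical
  rw [TA_apply]
  refine tf_eq_zero σ A _ p fun x hx => ?_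
  rw [extL_apply]
  refine ext_notMem F y fun h => hp ?_
  exact Finset.mem_image.2 ⟨(x, x⁻¹ • p), Finset.mem_product.2 ⟨hx, h⟩, smul_inv_smul x p⟩

open Classical in
/-- the solutions of the inner equations -/
theorem finrank_sysF_le [N.Normal] (A : Matrix κ ι (MonoidAlgebra ℤ K)) (F : Finset (K ⧸ N)) :
    finrank Dᵐᵒᵖ (LinearMap.ker (cbD σ (sysF N A (inn A F) F))) ≤
      finrank Dᵐᵒᵖ (Zk (TA σ A) F) + Fintype.card κ * (nb A F \ inn A F).card := by
  classical
  set S := LinearMap.ker (cbD σ (sysF N A (inn A F) F)) with hS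
  let T' : S →ₗ[Dᵐᵒᵖ] ((nb A F \ inn A F : Finset (K ⧸ N)) → κ → D) :=
    { toFun := fun y p => TA σ A (extL D ι F y.1) p
      map_add' := fun y z => by
        funext p
        show TA σ A (extL D ι F (y.1 + z.1)) p = TA σ A (extL D ι F y.1) p + TA σ A (extL D ι F z.1) p
        rw [map_add, map_add, Finsupp.add_apply]
      map_smul' := fun a y => by
        funext p
        show TA σ A (extL D ι F (a • y.1)) p = a • TA σ A (extL D ι F y.1) p
        rw [map_smul, map_smul, Finsupp.smul_apply] }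
  have h1 := LinearMap.finrank_range_add_finrank_ker T'
  have h2 : finrank Dᵐᵒᵖ (LinearMap.range T') ≤ Fintype.card κ * (nb A F \ inn A F).card := by
    refine (Submodule.finrank_le _).trans ?_
    rw [Module.finrank_pi_fintype, Finset.sum_const, Finset.card_univ, smul_eq_mul, finrank_col, Fintype.card_coe, mul_comm]
  have h3 : finrank Dᵐᵒᵖ (LinearMap.ker T') ≤ finrank Dᵐᵒᵖ (Zk (TA σ A) F) := by
    let J : LinearMap.ker T' →ₗ[Dᵐᵒᵖ] Zk (TA σ A) F :=
      { toFun := fun y => ⟨extL D ι F y.1.1, by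
          rw [mem_Zk]
          refine ⟨?_, fun q hq => ext_notMem F _ hq⟩
          apply Finsupp.ext
          intro p
          by_cases hp : p ∈ nb A F
          · by_cases hp' : p ∈ inn A F
            · funext k
              have h4 := cobd_sysF σ A (inn A F) F y.1.1 ⟨p, hp'⟩ k
              rw [← h4]
              have h5 : cbD σ (sysF N A (inn A F) F) y.1.1 = 0 := y.1.2
              rw [h5]
              rfl
            · have h4 : T' y.1 = 0 := y.2
              exact congrFun h4 ⟨p, Finset.mem_sdiff.2 ⟨hp, hp'⟩⟩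
          · exact TA_notMem_nb σ A F _ hp⟩
        map_add' := fun y z => Subtype.ext (map_add (extL D ι F) y.1.1 z.1.1)
        map_smul' := fun a y => Subtype.ext (map_smul (extL D ι F) a y.1.1) }
    refine LinearMap.finrank_le_finrank_of_injective (f := J) fun y z h => ?_
    have h4 : extL D ι F y.1.1 = extL D ι F z.1.1 := congrArg Subtype.val h
    exact Subtype.ext (Subtype.ext (extL_injective F h4))
  omega

open Classical in
/-- the number of the outer equations -/
theorem card_outer_le [N.Normal] (A : Matrix κ ι (MonoidAlgebra ℤ K)) (F : Finset (K ⧸ N)) :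
    (nb A F \ inn A F).card ≤ ∑ z ∈ supps A ×ˢ supps A,
      (F.filter fun f => (QuotientGroup.mk (z.2⁻¹ * z.1) : K ⧸ N) * f ∉ F).card := by
  have h1 : nb A F \ inn A F ⊆ (supps A ×ˢ supps A).biUnion fun z =>
      (F.filter fun f => (QuotientGroup.mk (z.2⁻¹ * z.1) : K ⧸ N) * f ∉ F).image fun f => z.1 • f := by
    intro p hp
    obtain ⟨hp1, hp2⟩ := Finset.mem_sdiff.1 hp
    obtain ⟨⟨x, f⟩, hxf, rfl⟩ := Finset.mem_image.1 hp1
    obtain ⟨hx, hf⟩ := Finset.mem_product.1 hxf
    have h3 : ∃ y ∈ supps A, y⁻¹ • (x • f) ∉ F := by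
      by_contra hcon
      push Not at hcon
      exact hp2 (Finset.mem_filter.2 ⟨hp1, hcon⟩)
    obtain ⟨y, hy, hyF⟩ := h3
    refine Finset.mem_biUnion.2 ⟨(x, y), Finset.mem_product.2 ⟨hx, hy⟩, Finset.mem_image.2 ⟨f, ?_, rfl⟩⟩
    refine Finset.mem_filter.2 ⟨hf, fun h => hyF ?_⟩
    have h4 : y⁻¹ • (x • f) = (QuotientGroup.mk (y⁻¹ * x) : K ⧸ N) * f := by
      induction f using QuotientGroup.induction_on with
      | H a => rw [smul_mk, smul_mk, ← mul_assoc]; rfl
    rw [h4]
    exact h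
  refine (Finset.card_le_card h1).trans (Finset.card_biUnion_le.trans ?_)
  exact Finset.sum_le_sum fun z _ => Finset.card_image_le

end dim

end SQ.A
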