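import Pool.Agent.SQ.A.Final

/-!
# SQ/A: only the normal subgroup has to be isomorphic to a subgroup of a Poincare duality group
-/

set_option autoImplicit false

noncomputable section

namespace SQ.A

open Singer SQ.U SQ.T3 SQ.BO Module
open Pool.Agent.Helper18.SQ (lm cok cA sA cok_eq_solL solD_eq)

/-- **Theorem A'**: the normal subgroup `N` of `K` has the property `P`, the quotient is amenable, and `N` is isomorphic to a
subgroup of a Poincare duality group of dimension `n`; then the `ℓ²`-homology of `K` vanishes in the degrees `i > n / 2` -/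
theorem vanE_emb {K P : Type} [Group K] [Group P] {n : ℕ} (hP : IsPD n P) (N : Subgroup K) [N.Normal] (f : N →* P)
    (hf : Function.Injective f) (hN : SQ.U.P N) (hA : SQ.V.Amenable (K ⧸ N)) (R : FinRes K) (i : ℕ) (hi : n < 2 * i) :
    R.VanE i := by
  obtain ⟨C⟩ := stmtCoef N hN
  obtain ⟨F, iF, iC, j, hj, -⟩ := C.toW.exists_F
  obtain ⟨D, iD, iA, π, hπs, hπ⟩ := C.toW.exists_D
  have hu : ∀ x, π x ≠ 0 → IsUnit x := fun x hx => (C.half x).resolve_right fun h => hx ((hπ x).2 h)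
  have hloc : T5.Loc (C.toW.up π) (C.toW.up j) := fun S hS hne => by
    obtain ⟨M, t, hz⟩ := hN.lz S hS hne
    exact ⟨M, t, hz, C.toW.ind_D hπ M t hz.inf, C.toW.ind_F hj M t hz.inf⟩
  have h1 : T5.Loc (C.toW.up j) (C.toW.up j) := loc_right hloc
  obtain ⟨T⟩ := exists_tw N C π hπs hπ
  have hU : ∀ {κ ι : Type} [Fintype κ] [Fintype ι] (A : Matrix κ ι (MonoidAlgebra ℤ N)),
      vdim (cok A) ≤ finrank Dᵐᵒᵖ (LinearMap.ker (cbD (C.toW.up π) A)) := by
    intro κ ι _ _ A
    have h2 := vdim_le_loc π hu hπs j C.toW.l (C.toW.up π) (C.toW.up j) (fun _ => rfl) (fun _ => rfl)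
      (fun X hX hX' => lin_of_fam (ev_injective (C.toW.up j) (allCos_of_loc h1 ⊥ ⊤ bot_le)) (fam_of_loc h1 hX hX'))
      (cA A) (sA A) (cok A) (cok_eq_solL A)
    have h3 := solD_eq (fun n : N => lm ((C.toW.up π n : Dˣ) : D)) A
    rw [h3] at h2
    exact h2
  obtain ⟨k, rfl⟩ : ∃ k, i = k + 1 := ⟨i - 1, by omega⟩
  exact vanE_of_exH T hU (lfoe hA) R k
    (exH_indr_of_emb hP N f hf hN.lz (C.toW.up π) (allCos_of_loc (loc_left hloc)).allInd R (k + 1) hi)

/-- the same for an overgroup of finite index -/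
theorem vanE_emb_virtual {Γ P : Type} [Group Γ] [Group P] {n : ℕ} (hP : IsPD n P) (H : Subgroup Γ) [H.FiniteIndex]
    (N : Subgroup H) [N.Normal] (hN : SQ.U.P N) (hA : SQ.V.Amenable (H ⧸ N)) (f : N →* P) (hf : Function.Injective f)
    (R : FinRes Γ) (i : ℕ) (hi : n < 2 * i) : R.VanE i :=
  FinRes.vanE_of_index H (fun R' => vanE_emb hP N f hf hN hA R' i hi) R

/-- for the Poincare duality groups of dimension `m` -/
theorem vanE_emb_pd {Γ P : Type} [Group Γ] [Group P] {n m : ℕ} (hP : IsPD n P) (H : Subgroup Γ) [H.FiniteIndex]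
    (hm : IsPD m Γ ∨ IsPD m H) (N : Subgroup H) [N.Normal] (hN : SQ.U.P N) (hA : SQ.V.Amenable (H ⧸ N)) (f : N →* P)
    (hf : Function.Injective f) (R : FinRes Γ) (i : ℕ) (hi : n < 2 * i ∨ 2 * i + n < 2 * m) : R.VanE i := by
  have hH : IsPD m H := hm.elim (fun h => h.of_finiteIndex H) id
  refine FinRes.vanE_of_index H (fun R' => ?_) R
  have h1 : ∀ i, n < 2 * i → R'.VanE i := fun i hi => vanE_emb hP N f hf hN hA R' i hi
  rcases hi with h2 | h2
  · exact h1 i h2
  · exact ((SQ.l2_dual R' hH).1 (m - i) i (by omega)).1 (h1 (m - i) (by omega))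

end SQ.A
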