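import Pool.Agent.SQ.A.Van

/-!
# SQ/A: from the homology with coefficients in the induced module to the `ℓ²`-homology
-/

set_option autoImplicit false
set_option linter.unusedSectionVars false

noncomputable section

namespace SQ.A

open Singer Singer.Ord Module
open Pool.Agent.Helper18.SQ (lm cok supps mem_supps finrank_col vdim_ker_hat betti_vdim Z_succ)
open SQ.HH (coc indr indr_single)

section flp
variable {K : Type} [Group K] {κ ι : Type}

/-- the inversion of the group elements -/
def flp (r : MonoidAlgebra ℤ K) : MonoidAlgebra ℤ K :=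
  MonoidAlgebra.ofCoeff (Finsupp.equivMapDomain (Equiv.inv K) r.coeff)

theorem flp_coeff (r : MonoidAlgebra ℤ K) (x : K) : (flp r).coeff x = r.coeff x⁻¹ := by
  show Finsupp.equivMapDomain (Equiv.inv K) r.coeff x = _
  rw [Finsupp.equivMapDomain_apply]
  rfl

theorem sum_flp {M : Type*} [AddCommMonoid M] (r : MonoidAlgebra ℤ K) (Φ : ℤ → K → M) :
    ∑ x ∈ (flp r).coeff.support, Φ ((flp r).coeff x) x = ∑ x ∈ r.coeff.support, Φ (r.coeff x) x⁻¹ := by
  refine Finset.sum_nbij' (fun x => x⁻¹) (fun x => x⁻¹) (fun x hx => ?_) (fun x hx => ?_) (fun x _ => inv_inv x)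
    (fun x _ => inv_inv x) fun x _ => ?_
  · rw [Finsupp.mem_support_iff, flp_coeff] at hx
    exact Finsupp.mem_support_iff.2 hx
  · rw [Finsupp.mem_support_iff, flp_coeff, inv_inv]
    exact Finsupp.mem_support_iff.1 hx
  · rw [flp_coeff, inv_inv]

/-- the transposed matrix -/
def trp (A : Matrix κ ι (MonoidAlgebra ℤ K)) : Matrix ι κ (MonoidAlgebra ℤ K) := Matrix.of fun i k => flp (A k i)

theorem trp_apply (A : Matrix κ ι (MonoidAlgebra ℤ K)) (i : ι) (k : κ) : trp A i k = flp (A k i) := rfl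

variable [Fintype κ] [Fintype ι]

theorem cok_trp (A : Matrix κ ι (MonoidAlgebra ℤ K)) :
    cok (trp A) = (LinearMap.ker (hat A : E K κ →ₗ[ℂ] E K ι) : Submodule ℂ (E K κ)) := by
  ext f
  rw [mem_cok_iff]
  have h1 : ∀ g i, ∑ k, ∑ x ∈ (trp A i k).coeff.support, ((trp A i k).coeff x : ℂ) * f (g * x, k) = hat A f (g, i) := by
    intro g i
    rw [hat_apply]
    refine Finset.sum_congr rfl fun k _ => ?_
    exact sum_flp (A k i) fun c x => (c : ℂ) * f (g * x, k)
  constructor
  · intro h
    show hat A f = 0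
    ext ⟨g, i⟩
    rw [← h1, h]
    rfl
  · intro h g i
    have h2 : hat A f = 0 := h
    rw [h1, h2]
    rfl

end flp

section betti
variable {K : Type} [Group K]

theorem betti_trp (R : FinRes K) (i : ℕ) :
    R.betti (i + 1) = vdim (cok (trp (R.d i))) + vdim (cok (trp (R.d (i + 1)))) - Fintype.card (R.ι (i + 2)) := by
  have h1 := betti_vdim R (i + 1)
  have h2 : vdim (R.toRes.Z (i + 1)) =
      vdim (LinearMap.ker (hat (R.d i) : E K (R.ι (i + 1)) →ₗ[ℂ] E K (R.ι i)) : Submodule ℂ (E K (R.ι (i + 1)))) := by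
    rw [Z_succ]
    rfl
  have h3 := vdim_ker_hat (R.d (i + 1))
  rw [cok_trp, cok_trp]
  linarith

end betti

section exh
variable {K : Type} [Group K] {N : Subgroup K} {D : Type} [DivisionRing D] [Algebra (ZMod 2) D] {σ : N →* Dˣ}

theorem indr_apply {Y : Type} [AddCommGroup Y] [Module (ZMod 2) Y] (τ : Representation (ZMod 2) N Y) (x : K)
    (v : K ⧸ N →₀ Y) (p : K ⧸ N) : indr τ x v p = τ (coc N x (x⁻¹ • p)) (v (x⁻¹ • p)) := by
  classical
  induction v using Finsupp.induction_linear with
  | zero => simp only [map_zero, Finsupp.zero_apply]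
  | add v w hv hw => rw [map_add, Finsupp.add_apply, hv, hw, Finsupp.add_apply, map_add]
  | single q y =>
    rw [indr_single, Finsupp.single_apply, Finsupp.single_apply]
    by_cases h : q = x⁻¹ • p
    · rw [if_pos h, if_pos (by rw [h, smul_inv_smul]), h]
    · rw [if_neg h, if_neg (fun h' => h (by rw [← h', inv_smul_smul])), map_zero]

theorem bdry_apply {α β : Type} [Fintype α] [Fintype β] (P : Matrix α β (MonoidAlgebra ℤ K)) (y : K ⧸ N →₀ (α → D))
    (f : α → (K ⧸ N →₀ D)) (hf : ∀ a p, f a p = y p a) (b : β) (p : K ⧸ N) :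
    bdry (indr (lmul σ)) P f b p = TA σ (trp P) y p b := by
  rw [TA_apply, tf]
  unfold bdry
  rw [Finsupp.finsetSum_apply]
  refine Finset.sum_congr rfl fun a _ => ?_
  rw [Finsupp.finsetSum_apply, trp_apply,
    sum_flp (P a b) fun c x => c • (((σ (coc N x (x⁻¹ • p)) : Dˣ) : D) * y (x⁻¹ • p) a)]
  refine Finset.sum_congr rfl fun x _ => ?_
  rw [Finsupp.smul_apply, indr_apply, Int.cast_smul_eq_zsmul, hf]
  rfl

variable [N.Normal]

/-- **from the homology with coefficients in the induced module to the `ℓ²`-homology** -/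
theorem vanE_of_exH (T : Tw σ) (hU : ∀ {κ ι : Type} [Fintype κ] [Fintype ι] (A : Matrix κ ι (MonoidAlgebra ℤ N)),
      vdim (cok A) ≤ finrank Dᵐᵒᵖ (LinearMap.ker (cbD σ A))) (hF : LFoe (K ⧸ N)) (R : FinRes K) (i : ℕ)
    (h : ExH (indr (lmul σ)) R (i + 1)) : R.VanE (i + 1) := by
  classical
  rw [← R.betti_eq_zero_iff]
  refine le_antisymm ?_ (R.betti_nonneg (i + 1))
  rw [betti_trp]
  have h1 := vdim_add_le T hU hF (trp (R.d i)) (trp (R.d (i + 1))) (fun y hy => ?_)
  · linarith
  · let f : R.ι (i + 1) → (K ⧸ N →₀ D) := fun a => y.mapRange (fun v : R.ι (i + 1) → D => v a) rfl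
    obtain ⟨e, he⟩ := h f (by
      funext b
      apply Finsupp.ext
      intro p
      rw [bdry_apply (R.d i) y f (fun a p => rfl), hy]
      rfl)
    let z : K ⧸ N →₀ (R.ι (i + 2) → D) := Finsupp.onFinset (Finset.univ.biUnion fun c => (e c).support)
      (fun p c => e c p) (by
        intro p hp
        by_contra hne
        apply hp
        funext c
        by_contra h0
        exact hne (Finset.mem_biUnion.2 ⟨c, Finset.mem_univ _, Finsupp.mem_support_iff.2 h0⟩))
    refine ⟨z, ?_⟩
    apply Finsupp.ext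
    intro p
    funext a
    rw [← bdry_apply (R.d (i + 1)) z e (fun c p => rfl) a p, he]
    rfl

end exh

end SQ.A
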