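import Pool.Agent.SQ.U.PairLoc

/-!
# SQ/A: the module induced from a normal subgroup of infinite index

`N` is a normal subgroup of `K`, isomorphic to a subgroup of a Poincare duality group `P` of dimension `n`, locally indicable,
with a skew field `D` over the field with two elements in which all pairs are independent.  Then `H_i(K; Ind_N^K D) = 0` for
`2 * i > n`.
-/

set_option autoImplicit false

open scoped TensorProduct

noncomputable section

namespace SQ.A

open Singer Singer.Ord SQ.T3 SQ.HH SQ.BO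

/-- comparison of the resolutions of two overgroups -/
theorem cmp2 {L Γ Γ' : Type} [Group L] [Group Γ] [Group Γ'] (l : L →* Γ) (hl : Function.Injective l) (l' : L →* Γ')
    (hl' : Function.Injective l') {Y : Type} [AddCommGroup Y] [Module (ZMod 2) Y] (τ : Representation (ZMod 2) L Y)
    (R : FinRes Γ) (R' : FinRes Γ') (j : ℕ) (h : HV l τ R j) : HV l' τ R' j := by
  intro c hc
  have h1 : ∀ x, (cxl l hl R τ).d j x ∈ coin ((cxl l hl R τ).σ j) ⊤ →
      ∃ y, x - (cxl l hl R τ).d (j + 1) y ∈ coin ((cxl l hl R τ).σ (j + 1)) ⊤ := by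
    intro x hx
    obtain ⟨e, he⟩ := h x (by rw [ivl_eq]; exact hx)
    refine ⟨e, ?_⟩
    rw [ivl_eq] at he
    exact he
  obtain ⟨e, he⟩ := coEx_cmp (cxl l hl R τ) (cxl l' hl' R' τ) ⊤ j h1 c (by
    rw [ivl_eq] at hc
    exact hc)
  refine ⟨e, ?_⟩
  rw [ivl_eq]
  exact he

/-- the stabilizers of the cosets of a normal subgroup -/
theorem smul_eq_iff {K : Type} [Group K] (N : Subgroup K) [N.Normal] (q : K ⧸ N) (g : K) :
    g • q = q ↔ (Quotient.out q)⁻¹ * g * Quotient.out q ∈ N := by
  have h1 : (QuotientGroup.mk (Quotient.out q) : K ⧸ N) = q := Quotient.out_eq' _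
  have h2 : g • q = QuotientGroup.mk (g * Quotient.out q) := by
    conv_lhs => rw [← h1]
    rfl
  have h3 : g • q = q ↔ (QuotientGroup.mk (Quotient.out q) : K ⧸ N) = QuotientGroup.mk (g * Quotient.out q) := by
    rw [h1, ← h2, eq_comm]
  rw [h3, QuotientGroup.eq, mul_assoc]

/-- **Shapiro's lemma**, inverse direction, for a normal subgroup: the vanishing for the subgroup gives the vanishing for the
induced module -/
theorem HV_indr_of_normal {K : Type} [Group K] (N : Subgroup K) [N.Normal] {Y : Type} [AddCommGroup Y]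
    [Module (ZMod 2) Y] (τ : Representation (ZMod 2) N Y) (R : FinRes K) (k : ℕ)
    (H : ∀ l : N →* K, Function.Injective l → HV l τ R k) : HV (MonoidHom.id K) (indr τ) R k := by
  refine HV_mono (m := indr τ) (c := fun g q => τ (coc N g q)) (indr_single τ) R k fun q₀ => ?_
  let s : K := Quotient.out q₀
  let l : N →* K := ((MulAut.conj s).toMonoidHom).comp N.subtype
  have hl : ∀ x : N, l x = s * (x : K) * s⁻¹ := fun x => rfl
  have hinj : Function.Injective l := (MulAut.conj s).injective.comp N.subtype_injective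
  have hfix : ∀ x : N, l x • q₀ = q₀ := by
    intro x
    rw [smul_eq_iff, hl]
    have h1 : (Quotient.out q₀)⁻¹ * (s * (x : K) * s⁻¹) * Quotient.out q₀ = x := by
      show s⁻¹ * (s * (x : K) * s⁻¹) * s = x
      group
    rw [h1]
    exact x.2
  refine ⟨N, inferInstance, l, τ, fun x => ⟨hfix x, fun y => ?_⟩, fun g hg => ?_, H l hinj⟩
  · have h1 : coc N (l x) q₀ = x := by
      apply Subtype.ext
      rw [coc_fix (hfix x), hl]
      show s⁻¹ * (s * (x : K) * s⁻¹ * s) = x
      group
    show τ x y = τ (coc N (l x) q₀) y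
    rw [h1]
  · have h1 : s⁻¹ * g * s ∈ N := (smul_eq_iff N q₀ g).1 hg
    refine ⟨⟨_, h1⟩, ?_⟩
    rw [hl]
    show s * (s⁻¹ * g * s) * s⁻¹ = g
    group

/-- **the vanishing of the homology of the induced module**, for a normal subgroup which is isomorphic to a subgroup of a
Poincare duality group of dimension `n` -/
theorem exH_indr_of_emb {P K : Type} [Group P] [Group K] {n : ℕ} (hP : IsPD n P) (N : Subgroup K) [N.Normal] (f : N →* P)
    (hf : Function.Injective f) (hLI : ∀ S : Subgroup N, S.FG → S ≠ ⊥ → ∃ (M : Subgroup N) (t : N), ZP S M t)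
    {D : Type} [DivisionRing D] [Algebra (ZMod 2) D] (ρ : N →* Dˣ) (hI : AllInd ρ) (R : FinRes K) (i : ℕ)
    (hi : n < 2 * i) : ExH (indr (lmul ρ)) R i := by
  obtain ⟨S⟩ := exists_finRes_of_isPD hP
  let N' : Subgroup P := f.range
  let e : N ≃* N' := MonoidHom.ofInjective hf
  let τ' : Representation (ZMod 2) N' D := lmul (ρ.comp e.symm.toMonoidHom)
  have h1 : ∀ j, HV (MonoidHom.id P) ((indr τ').tprod (indr τ')) S j := by
    intro j
    refine mackey P N' _ τ' S j fun L a b ha hb => ?_
    exact pair_of_ind hLI ρ hI (e.symm.toMonoidHom.comp a) (e.symm.toMonoidHom.comp b) (e.symm.injective.comp ha)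
      (e.symm.injective.comp hb) L.subtype L.subtype_injective S j
  have h2 : ∀ j, j < n → Ex ((indr τ').tprod (indr τ')) S j := by
    intro j hj
    refine (pd _ n hP S).1 j hj.le ?_
    obtain ⟨k, hk⟩ : ∃ k, n - j = k + 1 := ⟨n - j - 1, by omega⟩
    rw [hk]
    exact (hv_iff_exH P _ _ S k).1 (h1 k)
  have h3 : ∀ m, 2 * m < n → Ex (indr τ') S m := fun m hm =>
    lem P (noInv P n hP) S _ _ m fun j hj => h2 j (by omega)
  have h4 : ExH (indr τ') S i := by
    by_cases hin : i ≤ n
    · have h5 := ((pd_iff (indr τ') n hP S).1 (n - i) (by omega)).1 (h3 (n - i) (by omega))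
      rwa [show n - (n - i) = i by omega] at h5
    · exact (pd_iff (indr τ') n hP S).2.2 i (by omega)
  obtain ⟨k, hk⟩ : ∃ k, i = k + 1 := ⟨i - 1, by omega⟩
  rw [hk] at h4 ⊢
  have h5 : HV N'.subtype τ' S k := shapiro P N' _ τ' S k ((hv_iff_exH P _ _ S k).2 h4)
  -- the same with `N` in place of its image
  have h6 : HV (N'.subtype.comp e.toMonoidHom) (lmul ρ) S k := by
    intro c hc
    have hI' : ∀ α : Type, Ivl (N'.subtype.comp e.toMonoidHom) (lmul ρ) α = Ivl N'.subtype τ' α := by
      intro α
      refine congrArg (Submodule.span (ZMod 2)) (Set.ext fun z => ?_)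
      constructor
      · rintro ⟨g, x, rfl⟩
        refine ⟨e g, x, ?_⟩
        have h7 : τ' (e g) = lmul ρ g := by
          show lmul ρ (e.symm (e g)) = lmul ρ g
          rw [e.symm_apply_apply]
        show sgl _ (lmul ρ) α g x - x = TensorProduct.map (Acr.lam α (N'.subtype (e g))) (τ' (e g)) x - x
        rw [h7]
        rfl
      · rintro ⟨g, x, rfl⟩
        refine ⟨e.symm g, x, ?_⟩
        show TensorProduct.map (Acr.lam α (N'.subtype g)) (τ' g) x - x =
          TensorProduct.map (Acr.lam α (N'.subtype (e (e.symm g)))) (lmul ρ (e.symm g)) x - x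
        rw [e.apply_symm_apply]
        rfl
    rw [hI'] at hc
    obtain ⟨x, hx⟩ := h5 c hc
    refine ⟨x, ?_⟩
    rw [hI']
    exact hx
  refine (hv_iff_exH K _ _ R k).1 (HV_indr_of_normal N (lmul ρ) R k fun l hl => ?_)
  have h7 : Function.Injective (N'.subtype.comp e.toMonoidHom) := fun x y h => e.injective (N'.subtype_injective h)
  exact cmp2 _ h7 l hl (lmul ρ) S R k h6

/-- the case of a normal subgroup of a subgroup of a Poincare duality group -/
theorem exH_indr {P K : Type} [Group P] [Group K] {n : ℕ} (hP : IsPD n P) (f : K →* P) (hf : Function.Injective f)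
    (N : Subgroup K) [N.Normal] (hLI : ∀ S : Subgroup N, S.FG → S ≠ ⊥ → ∃ (M : Subgroup N) (t : N), ZP S M t)
    {D : Type} [DivisionRing D] [Algebra (ZMod 2) D] (ρ : N →* Dˣ) (hI : AllInd ρ) (R : FinRes K) (i : ℕ)
    (hi : n < 2 * i) : ExH (indr (lmul ρ)) R i :=
  exH_indr_of_emb hP N (f.comp N.subtype) (hf.comp N.subtype_injective) hLI ρ hI R i hi

end SQ.A
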