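import Mathlib

/-! # Kernels on finite sets: the rank inequality for amenable quotients

Linear algebra over a skew field for the extension theorem with an arbitrary amenable quotient.  The exactness of a complex
of free modules over a crossed product gives an inequality between the dimensions of the kernels on finite sets, up to
boundary terms; the proof uses the inequality of Shearer for submodular functions. -/

set_option autoImplicit false

open Module

noncomputable section

namespace SQ.A

section rank

variable {Q : Type} [Group Q] {D : Type} [DivisionRing D] {V W : Type} [AddCommGroup V] [Module D V] [AddCommGroup W]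
  [Module D W]

/-- the kernel on the finite set `F` -/
def Zk (A : (Q →₀ V) →ₗ[D] W) (F : Finset Q) : Submodule D (Q →₀ V) :=
  LinearMap.ker A ⊓ Finsupp.supported V D (F : Set Q)

end rank

section basic

variable {Q : Type} {D : Type} [DivisionRing D] {V W : Type} [AddCommGroup V] [Module D V] [FiniteDimensional D V]
  [AddCommGroup W] [Module D W]

instance fin_supp (F : Finset Q) : FiniteDimensional D (Finsupp.supported V D (F : Set Q)) := by
  have e := (Finsupp.supportedEquivFinsupp (M := V) (R := D) (F : Set Q)).symm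
  exact Module.Finite.equiv e

omit [FiniteDimensional D V] in
theorem finrank_supp (F : Finset Q) : finrank D (Finsupp.supported V D (F : Set Q)) = finrank D V * F.card := by
  have e := (Finsupp.supportedEquivFinsupp (M := V) (R := D) (F : Set Q))
  rw [e.finrank_eq, Module.finrank_finsupp]
  simp [mul_comm]

/-- the rank modulo a subspace, up to a constant -/
def rk (U : Submodule D (Q →₀ V)) (G : Finset Q) : ℕ :=
  finrank D (Finsupp.supported V D (G : Set Q) ⊔ U : Submodule D (Q →₀ V))

theorem rk_mono (U : Submodule D (Q →₀ V)) [FiniteDimensional D U] {F G : Finset Q} (h : G ⊆ F) : rk U G ≤ rk U F :=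
  Submodule.finrank_mono (sup_le_sup_right (Finsupp.supported_mono (by exact_mod_cast h)) _)

omit [FiniteDimensional D V] in
theorem rk_empty (U : Submodule D (Q →₀ V)) : rk U ∅ = finrank D U := by
  rw [rk, Finset.coe_empty, Finsupp.supported_empty, bot_sup_eq]

omit [FiniteDimensional D V] in
theorem rk_of_le {U : Submodule D (Q →₀ V)} {F : Finset Q} (h : U ≤ Finsupp.supported V D (F : Set Q)) :
    rk U F = finrank D V * F.card := by
  rw [rk, sup_eq_left.2 h, finrank_supp]

theorem rk_le (U : Submodule D (Q →₀ V)) [FiniteDimensional D U] (F : Finset Q) :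
    rk U F ≤ finrank D V * F.card + finrank D U := by
  refine (Submodule.finrank_add_le_finrank_add_finrank _ _).trans ?_
  rw [finrank_supp]

theorem rk_add_le {U Z : Submodule D (Q →₀ V)} [FiniteDimensional D U] {F : Finset Q} (h : Z ≤ U)
    (h' : Z ≤ Finsupp.supported V D (F : Set Q)) :
    rk U F + finrank D Z ≤ finrank D V * F.card + finrank D U := by
  have h5 := Submodule.finrank_sup_add_finrank_inf_eq (Finsupp.supported V D (F : Set Q)) U
  rw [finrank_supp] at h5
  have h7 := Submodule.finrank_mono (le_inf h' h)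
  rw [rk]
  omega

/-- the ranks modulo a subspace are submodular -/
theorem submod [DecidableEq Q] (U : Submodule D (Q →₀ V)) [FiniteDimensional D U] {F G : Finset Q} (h : G ⊆ F) (x : Q) :
    rk U (insert x F) + rk U G ≤ rk U F + rk U (insert x G) := by
  unfold rk
  have e := Submodule.finrank_sup_add_finrank_inf_eq (Finsupp.supported V D (F : Set Q) ⊔ U)
    (Finsupp.supported V D ((insert x G : Finset Q) : Set Q) ⊔ U)
  rw [← e]
  refine add_le_add ?_ ?_
  · refine Submodule.finrank_mono ?_
    refine sup_le ?_ (le_sup_of_le_left le_sup_right)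
    have h1 : ((insert x F : Finset Q) : Set Q) ⊆ (F : Set Q) ∪ ((insert x G : Finset Q) : Set Q) := by
      intro y hy
      simp only [Finset.coe_insert, Set.mem_insert_iff, Finset.mem_coe, Set.mem_union] at hy ⊢
      tauto
    refine (Finsupp.supported_mono h1).trans ?_
    rw [Finsupp.supported_union]
    exact sup_le (le_sup_of_le_left le_sup_left) (le_sup_of_le_right le_sup_left)
  · refine Submodule.finrank_mono ?_
    refine le_inf (sup_le_sup_right (Finsupp.supported_mono ?_) _) (sup_le_sup_right (Finsupp.supported_mono ?_) _)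
    · exact_mod_cast h
    · exact_mod_cast Finset.subset_insert x G

end basic

/-- **the inequality of Shearer** for a monotone submodular function -/
theorem shearer {Q T : Type} [DecidableEq Q] (s : Finset Q → ℕ) (hm : ∀ {F G : Finset Q}, G ⊆ F → s G ≤ s F)
    (hs : ∀ {F G : Finset Q} (x : Q), G ⊆ F → s (insert x F) + s G ≤ s F + s (insert x G)) (I : Finset T) (A : T → Finset Q)
    (m : ℕ) (F : Finset Q) (hF : ∀ x ∈ F, m ≤ (I.filter fun t => x ∈ A t).card) :
    m * s F + I.card * s ∅ ≤ (∑ t ∈ I, s (A t ∩ F)) + m * s ∅ := by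
  induction F using Finset.induction_on with
  | empty => simp [add_comm]
  | insert x F hx ih =>
    have h0 := ih fun y hy => hF y (Finset.mem_insert_of_mem hy)
    obtain ⟨δ, hδ⟩ := Nat.exists_eq_add_of_le (hm (Finset.subset_insert x F))
    have h1 : ∀ t ∈ I, s (A t ∩ F) + (if x ∈ A t then δ else 0) ≤ s (A t ∩ insert x F) := by
      intro t _
      split_ifs with h
      · rw [Finset.inter_insert_of_mem h]
        have h2 := hs x (Finset.inter_subset_right (s₁ := A t) (s₂ := F))
        omega
      · rw [Finset.inter_insert_of_notMem h]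
        simp
    have h3 := Finset.sum_le_sum h1
    rw [Finset.sum_add_distrib, ← Finset.sum_filter, Finset.sum_const, smul_eq_mul] at h3
    have h4 : m * δ ≤ (I.filter fun t => x ∈ A t).card * δ := Nat.mul_le_mul_right _ (hF x (Finset.mem_insert_self x F))
    rw [hδ, mul_add]
    omega

theorem arith {e c f a u n1 n2 S1 S2 nt : ℕ} (hsh : e * (c * f) + nt * u ≤ S1 + S2 + e * u)
    (h9 : S1 + n1 * a ≤ n1 * (c * e + u)) (h9' : S2 ≤ n2 * (c * e + u)) (h11 : n1 + n2 = nt) (h12 : n1 ≤ f)
    (hA : a ≤ c * e) : a * f ≤ n2 * (c * e) + e * u := by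
  obtain ⟨r, rfl⟩ := Nat.exists_eq_add_of_le h12
  have h1 : a * r ≤ c * e * r := Nat.mul_le_mul_right _ hA
  subst h11
  have e1 : e * (c * (n1 + r)) = n1 * (c * e) + c * e * r := by ring
  have e2 : (n1 + n2) * u = n1 * u + n2 * u := by ring
  have e3 : n1 * (c * e + u) = n1 * (c * e) + n1 * u := by ring
  have e4 : n2 * (c * e + u) = n2 * (c * e) + n2 * u := by ring
  have e5 : a * (n1 + r) = n1 * a + a * r := by ring
  rw [e1, e2] at hsh
  rw [e3] at h9
  rw [e4] at h9'
  rw [e5]
  omega

theorem arith' {k e a aF bF u n2 m c c2 f ee e' S : ℕ} (he : 0 < e) (hb : k * aF * e ≤ k * a * f + e * f)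
    (hlow : a * f ≤ n2 * (c * e) + e * u) (hup : u + bF ≤ c2 * f + c2 * m) (hn : n2 ≤ ee * S) (hm : m ≤ e' * S) :
    k * (aF + bF) ≤ k * (c2 * f) + f + k * (c * ee + c2 * e') * S := by
  have h1 : e * (k * aF) ≤ e * (k * (n2 * c + u) + f) := by
    calc e * (k * aF) = k * aF * e := by ring
      _ ≤ k * a * f + e * f := hb
      _ = k * (a * f) + e * f := by ring
      _ ≤ k * (n2 * (c * e) + e * u) + e * f := by gcongr
      _ = e * (k * (n2 * c + u) + f) := by ring
  have h2 := Nat.le_of_mul_le_mul_left h1 he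
  calc k * (aF + bF) = k * aF + k * bF := by ring
    _ ≤ k * (n2 * c + u) + f + k * bF := by gcongr
    _ = k * (n2 * c) + k * (u + bF) + f := by ring
    _ ≤ k * (ee * S * c) + k * (c2 * f + c2 * (e' * S)) + f := by
      have h3 : c2 * m ≤ c2 * (e' * S) := Nat.mul_le_mul_left _ hm
      have h4 : u + bF ≤ c2 * f + c2 * (e' * S) := hup.trans (Nat.add_le_add_left h3 _)
      gcongr
    _ = k * (c2 * f) + f + k * (c * ee + c2 * e') * S := by ring

section main

variable {Q : Type} [Group Q] {D : Type} [DivisionRing D]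

omit [Group Q] in
/-- rank and nullity on a finite set -/
theorem rank_null {V W : Type} [AddCommGroup V] [Module D V] [FiniteDimensional D V] [AddCommGroup W] [Module D W]
    (B : (Q →₀ V) →ₗ[D] W) (F : Finset Q) :
    finrank D ((Finsupp.supported V D (F : Set Q)).map B) + finrank D (Zk B F) = finrank D V * F.card := by
  have h := LinearMap.finrank_range_add_finrank_ker (B.domRestrict (Finsupp.supported V D (F : Set Q)))
  rw [finrank_supp] at h
  rw [← h]
  congr 1
  · rw [LinearMap.range_domRestrict]
  · have e : (LinearMap.ker (B.domRestrict (Finsupp.supported V D (F : Set Q)))).map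
        (Finsupp.supported V D (F : Set Q)).subtype = Zk B F := by
      ext v
      simp only [Submodule.mem_map, LinearMap.mem_ker, LinearMap.domRestrict_apply, Submodule.subtype_apply, Zk,
        Submodule.mem_inf]
      constructor
      · rintro ⟨y, hy, rfl⟩
        exact ⟨hy, y.2⟩
      · rintro ⟨h1, h2⟩
        exact ⟨⟨v, h2⟩, h1, rfl⟩
    rw [← e, Submodule.finrank_map_subtype_eq]

/-- the translates of `E` which lie in `F`, and those which meet `F` -/
def tr [DecidableEq Q] (E F : Finset Q) : Finset Q := Finset.image₂ (fun e f => e⁻¹ * f) E F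

theorem mem_map_mul {E : Finset Q} {t x : Q} : x ∈ E.map (mulRightEmbedding t) ↔ x * t⁻¹ ∈ E := by
  simp only [Finset.mem_map, mulRightEmbedding_apply]
  constructor
  · rintro ⟨y, hy, rfl⟩
    simpa using hy
  · intro h
    exact ⟨_, h, by simp⟩

/-- the boundary of `F` for the translation by `l` -/
def bd [DecidableEq Q] (F : Finset Q) (l : Q) : Finset Q := F.filter fun x => l * x ∉ F

variable {V₀ V₁ V₂ : Type} [AddCommGroup V₀] [Module D V₀] [AddCommGroup V₁] [Module D V₁] [FiniteDimensional D V₁]
  [AddCommGroup V₂] [Module D V₂] [FiniteDimensional D V₂]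

/-- the lower bound for the dimension of the sum of the kernels on the translates in `F` -/
theorem lower [DecidableEq Q] (A : (Q →₀ V₁) →ₗ[D] V₀)
    (h1 : ∀ (E : Finset Q) (t : Q), finrank D (Zk A E) ≤ finrank D (Zk A (E.map (mulRightEmbedding t))))
    {E : Finset Q} {e₀ : Q} (he : e₀ ∈ E) (F : Finset Q) :
    finrank D (Zk A E) * F.card ≤ ((tr E F).filter fun t => ¬ E.map (mulRightEmbedding t) ⊆ F).card * (finrank D V₁ * E.card) +
      E.card * finrank D (((tr E F).filter fun t => E.map (mulRightEmbedding t) ⊆ F).sup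
        fun t => Zk A (E.map (mulRightEmbedding t)) : Submodule D (Q →₀ V₁)) := by
  set T := tr E F with hT
  set T1 := T.filter fun t => E.map (mulRightEmbedding t) ⊆ F with hT1
  set T2 := T.filter fun t => ¬ E.map (mulRightEmbedding t) ⊆ F with hT2
  set U : Submodule D (Q →₀ V₁) := T1.sup fun t => Zk A (E.map (mulRightEmbedding t)) with hU
  have hUF : U ≤ Finsupp.supported V₁ D (F : Set Q) := by
    refine Finset.sup_le fun t ht => inf_le_right.trans (Finsupp.supported_mono ?_)
    exact_mod_cast (Finset.mem_filter.1 ht).2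
  have : FiniteDimensional D U := Submodule.finiteDimensional_of_le hUF
  have hsh := shearer (rk U) (rk_mono U) (fun x h => submod U h x) T (fun t => E.map (mulRightEmbedding t)) E.card F ?_
  swap
  · intro x hx
    have hinj : Function.Injective fun e : Q => e⁻¹ * x := fun a b h => by simpa using h
    rw [← Finset.card_image_of_injective E hinj]
    refine Finset.card_le_card fun y hy => ?_
    obtain ⟨e, h2, rfl⟩ := Finset.mem_image.1 hy
    refine Finset.mem_filter.2 ⟨Finset.mem_image₂_of_mem h2 hx, mem_map_mul.2 ?_⟩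
    simpa using h2
  rw [rk_empty, rk_of_le hUF] at hsh
  -- the terms of the sum
  have hA : finrank D (Zk A E) ≤ finrank D V₁ * E.card := by
    rw [← finrank_supp]
    exact Submodule.finrank_mono inf_le_right
  have h3 : ∀ t ∈ T1, rk U (E.map (mulRightEmbedding t) ∩ F) + finrank D (Zk A E) ≤
      finrank D V₁ * E.card + finrank D U := by
    intro t ht
    have h4 := (Finset.mem_filter.1 ht).2
    rw [Finset.inter_eq_left.2 h4]
    have h6 : rk U (E.map (mulRightEmbedding t)) + finrank D (Zk A (E.map (mulRightEmbedding t))) ≤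
        finrank D V₁ * (E.map (mulRightEmbedding t)).card + finrank D U :=
      rk_add_le (Finset.le_sup (f := fun t => Zk A (E.map (mulRightEmbedding t))) ht) inf_le_right
    rw [Finset.card_map] at h6
    have h8 := h1 E t
    omega
  have h3' : ∀ t ∈ T2, rk U (E.map (mulRightEmbedding t) ∩ F) ≤ finrank D V₁ * E.card + finrank D U := by
    intro t ht
    refine (rk_le U _).trans (Nat.add_le_add_right (Nat.mul_le_mul_left _ ?_) _)
    rw [← Finset.card_map (mulRightEmbedding t) (s := E)]
    exact Finset.card_le_card Finset.inter_subset_left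
  have h9 := Finset.sum_le_sum h3
  have h9' := Finset.sum_le_sum h3'
  rw [Finset.sum_add_distrib, Finset.sum_const, Finset.sum_const, smul_eq_mul, smul_eq_mul] at h9
  rw [Finset.sum_const, smul_eq_mul] at h9'
  have h10 := Finset.sum_filter_add_sum_filter_not T (fun t => E.map (mulRightEmbedding t) ⊆ F)
    (fun t => rk U (E.map (mulRightEmbedding t) ∩ F))
  rw [← hT1, ← hT2] at h10
  have h11 : T1.card + T2.card = T.card := Finset.card_filter_add_card_filter_not _
  have h12 : T1.card ≤ F.card := by
    have hinj : Function.Injective fun t : Q => e₀ * t := fun a b h => by simpa using h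
    rw [← Finset.card_image_of_injective T1 hinj]
    refine Finset.card_le_card fun y hy => ?_
    obtain ⟨t, h2, rfl⟩ := Finset.mem_image.1 hy
    exact (Finset.mem_filter.1 h2).2 (mem_map_mul.2 (by simpa using he))
  rw [← h10] at hsh
  exact arith hsh h9 h9' h11 h12 hA

omit [FiniteDimensional D V₁] in
/-- the upper bound for the dimension of the sum of the kernels on the translates in `F` -/
theorem upper [DecidableEq Q] (A : (Q →₀ V₁) →ₗ[D] V₀) (B : (Q →₀ V₂) →ₗ[D] (Q →₀ V₁)) {E E' : Finset Q}
    (h2 : ∀ t : Q, Zk A (E.map (mulRightEmbedding t)) ≤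
      (Finsupp.supported V₂ D ((E'.map (mulRightEmbedding t) : Finset Q) : Set Q)).map B) (T1 F : Finset Q) :
    finrank D (T1.sup fun t => Zk A (E.map (mulRightEmbedding t)) : Submodule D (Q →₀ V₁)) + finrank D (Zk B F) ≤
      finrank D V₂ * F.card +
        finrank D V₂ * ((T1.biUnion fun t => E'.map (mulRightEmbedding t)) \ F).card := by
  set P := T1.biUnion fun t => E'.map (mulRightEmbedding t) with hP
  have h3 : (T1.sup fun t => Zk A (E.map (mulRightEmbedding t)) : Submodule D (Q →₀ V₁)) ≤
      (Finsupp.supported V₂ D (F : Set Q)).map B ⊔ (Finsupp.supported V₂ D ((P \ F : Finset Q) : Set Q)).map B := by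
    refine Finset.sup_le fun t ht => (h2 t).trans ?_
    rw [← Submodule.map_sup, ← Finsupp.supported_union]
    refine Submodule.map_mono (Finsupp.supported_mono ?_)
    intro y hy
    have h4 : y ∈ P := Finset.mem_biUnion.2 ⟨t, ht, hy⟩
    by_cases h5 : y ∈ F
    · exact Or.inl h5
    · exact Or.inr (by exact_mod_cast Finset.mem_sdiff.2 ⟨h4, h5⟩)
  have h4 := Submodule.finrank_mono h3
  have h5 := Submodule.finrank_add_le_finrank_add_finrank ((Finsupp.supported V₂ D (F : Set Q)).map B)
    ((Finsupp.supported V₂ D ((P \ F : Finset Q) : Set Q)).map B)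
  have h6 := Submodule.finrank_map_le B (Finsupp.supported V₂ D ((P \ F : Finset Q) : Set Q))
  rw [finrank_supp] at h6
  have h7 := rank_null B F
  omega

end main

section bdry

variable {Q : Type} [Group Q] [DecidableEq Q]

/-- the translates of `E` which meet `F` but are not in `F` -/
theorem card_cut (E F : Finset Q) : ((tr E F).filter fun t => ¬ E.map (mulRightEmbedding t) ⊆ F).card ≤
    ∑ p ∈ E ×ˢ E, (bd F (p.2 * p.1⁻¹)).card := by
  have h : ((tr E F).filter fun t => ¬ E.map (mulRightEmbedding t) ⊆ F) ⊆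
      (E ×ˢ E).biUnion fun p => (bd F (p.2 * p.1⁻¹)).image fun f => p.1⁻¹ * f := by
    intro t ht
    obtain ⟨h1, h2⟩ := Finset.mem_filter.1 ht
    obtain ⟨e, he, f, hf, rfl⟩ := Finset.mem_image₂.1 h1
    obtain ⟨y, hy, hy'⟩ := Finset.not_subset.1 h2
    obtain ⟨e', he', rfl⟩ := Finset.mem_map.1 hy
    refine Finset.mem_biUnion.2 ⟨(e, e'), Finset.mem_product.2 ⟨he, he'⟩, Finset.mem_image.2 ⟨f, ?_, rfl⟩⟩
    refine Finset.mem_filter.2 ⟨hf, ?_⟩
    simpa [mul_assoc] using hy'
  refine (Finset.card_le_card h).trans (Finset.card_biUnion_le.trans (Finset.sum_le_sum fun p _ => ?_))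
  exact Finset.card_image_le

/-- the points which are reached from the translates of `E` in `F` and are not in `F` -/
theorem card_out {E : Finset Q} (E' F : Finset Q) {e₀ : Q} (he : e₀ ∈ E) :
    ((((tr E F).filter fun t => E.map (mulRightEmbedding t) ⊆ F).biUnion fun t => E'.map (mulRightEmbedding t)) \ F).card ≤
      ∑ p ∈ E', (bd F (p * e₀⁻¹)).card := by
  have h : ((((tr E F).filter fun t => E.map (mulRightEmbedding t) ⊆ F).biUnion fun t => E'.map (mulRightEmbedding t)) \ F) ⊆
      E'.biUnion fun p => (bd F (p * e₀⁻¹)).image fun f => p * e₀⁻¹ * f := by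
    intro y hy
    obtain ⟨h1, h2⟩ := Finset.mem_sdiff.1 hy
    obtain ⟨t, ht, h3⟩ := Finset.mem_biUnion.1 h1
    obtain ⟨e', he', rfl⟩ := Finset.mem_map.1 h3
    have h4 : e₀ * t ∈ F := (Finset.mem_filter.1 ht).2 (mem_map_mul.2 (by simpa using he))
    refine Finset.mem_biUnion.2 ⟨e', he', Finset.mem_image.2 ⟨e₀ * t, Finset.mem_filter.2 ⟨h4, ?_⟩, ?_⟩⟩
    · simpa [mul_assoc] using h2
    · simp [mul_assoc]
  refine (Finset.card_le_card h).trans (Finset.card_biUnion_le.trans (Finset.sum_le_sum fun p _ => ?_))
  exact Finset.card_image_le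

end bdry

/-- a set with almost the largest density -/
theorem exists_best {Q : Type} [Nonempty Q] (a : Finset Q → ℕ) (c : ℕ) (ha : ∀ E, a E ≤ c * E.card) (k : ℕ) :
    ∃ E : Finset Q, E.Nonempty ∧ ∀ F : Finset Q, k * a F * E.card ≤ k * a E * F.card + E.card * F.card := by
  classical
  set S : Set ℕ := {j | ∃ E : Finset Q, E.Nonempty ∧ k * a E / E.card = j} with hS
  have h1 : S.Nonempty := ⟨_, {Classical.arbitrary Q}, Finset.singleton_nonempty _, rfl⟩
  have h2 : BddAbove S := by
    refine ⟨k * c, ?_⟩
    rintro j ⟨E, hE, rfl⟩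
    refine Nat.div_le_of_le_mul ?_
    calc k * a E ≤ k * (c * E.card) := Nat.mul_le_mul_left _ (ha E)
      _ = E.card * (k * c) := by ring
  obtain ⟨E, hE, hj⟩ := Nat.sSup_mem h1 h2
  refine ⟨E, hE, fun F => ?_⟩
  rcases F.eq_empty_or_nonempty with rfl | hF
  · have h3 := ha ∅
    simp only [Finset.card_empty, mul_zero, Nat.le_zero] at h3
    simp [h3]
  · have h3 : k * a F / F.card ≤ k * a E / E.card := by
      rw [hj]
      exact le_csSup h2 ⟨F, hF, rfl⟩
    have h4 : k * a F ≤ (k * a F / F.card + 1) * F.card := by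
      have := Nat.lt_div_mul_add (a := k * a F) hF.card_pos
      rw [add_mul, one_mul]
      exact this.le
    have h5 : k * a E / E.card * E.card ≤ k * a E := Nat.div_mul_le_self _ _
    calc k * a F * E.card ≤ (k * a F / F.card + 1) * F.card * E.card := Nat.mul_le_mul_right _ h4
      _ ≤ (k * a E / E.card + 1) * F.card * E.card := by gcongr
      _ = (k * a E / E.card * E.card) * F.card + E.card * F.card := by ring
      _ ≤ k * a E * F.card + E.card * F.card := by gcongr

open Classical in
/-- **the rank inequality** -/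
theorem rank_main {Q : Type} [Group Q] {D : Type} [DivisionRing D] {V₀ V₁ V₂ : Type} [AddCommGroup V₀] [Module D V₀]
    [AddCommGroup V₁] [Module D V₁] [FiniteDimensional D V₁] [AddCommGroup V₂] [Module D V₂] [FiniteDimensional D V₂]
    (A : (Q →₀ V₁) →ₗ[D] V₀) (B : (Q →₀ V₂) →ₗ[D] (Q →₀ V₁))
    (h1 : ∀ (E : Finset Q) (t : Q), finrank D (Zk A E) ≤ finrank D (Zk A (E.map (mulRightEmbedding t))))
    (h2 : ∀ E : Finset Q, ∃ E' : Finset Q, ∀ t : Q, Zk A (E.map (mulRightEmbedding t)) ≤
      (Finsupp.supported V₂ D ((E'.map (mulRightEmbedding t) : Finset Q) : Set Q)).map B) (k : ℕ) :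
    ∃ (L : Finset Q) (C : ℕ), ∀ F : Finset Q, k * (finrank D (Zk A F) + finrank D (Zk B F)) ≤
      k * (finrank D V₂ * F.card) + F.card + C * ∑ l ∈ L, (F.filter fun x => l * x ∉ F).card := by
  obtain ⟨E, hE, hbest⟩ := exists_best (fun E => finrank D (Zk A E)) (finrank D V₁) (fun E => by
    rw [← finrank_supp]
    exact Submodule.finrank_mono inf_le_right) k
  obtain ⟨e₀, he⟩ := hE
  obtain ⟨E', hE'⟩ := h2 E
  refine ⟨Finset.image₂ (fun e e' => e' * e⁻¹) (insert e₀ E) (E ∪ E'),
    k * (finrank D V₁ * (E ×ˢ E).card + finrank D V₂ * E'.card), fun F => ?_⟩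
  set S := ∑ l ∈ Finset.image₂ (fun e e' => e' * e⁻¹) (insert e₀ E) (E ∪ E'), (F.filter fun x => l * x ∉ F).card with hS
  have hl : ∀ {e e' : Q}, e ∈ insert e₀ E → e' ∈ E ∪ E' → (bd F (e' * e⁻¹)).card ≤ S := fun {e e'} h h' =>
    Finset.single_le_sum (f := fun l => (F.filter fun x => l * x ∉ F).card) (fun _ _ => Nat.zero_le _)
      (Finset.mem_image₂_of_mem h h')
  have hlow := lower A h1 he F
  have hup := upper A B hE' ((tr E F).filter fun t => E.map (mulRightEmbedding t) ⊆ F) F
  have hc := card_cut E F
  have ho := card_out E' F he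
  have hc' : ∑ p ∈ E ×ˢ E, (bd F (p.2 * p.1⁻¹)).card ≤ (E ×ˢ E).card * S := by
    rw [← smul_eq_mul]
    refine Finset.sum_le_card_nsmul _ _ _ fun p hp => ?_
    obtain ⟨h3, h4⟩ := Finset.mem_product.1 hp
    exact hl (Finset.mem_insert_of_mem h3) (Finset.mem_union_left _ h4)
  have ho' : ∑ p ∈ E', (bd F (p * e₀⁻¹)).card ≤ E'.card * S := by
    rw [← smul_eq_mul]
    exact Finset.sum_le_card_nsmul _ _ _ fun p hp => hl (Finset.mem_insert_self _ _) (Finset.mem_union_right _ hp)
  exact arith' (Finset.card_pos.2 ⟨e₀, he⟩) (hbest F) hlow hup (hc.trans hc') (ho.trans ho')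

end SQ.A
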