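import Pool.Agent.Singer.Dim

/-!
# SQ/A: restriction of invariant subspaces of `ℓ²(K)` to finitely many cosets of a subgroup

`vdim_restr`: if the restrictions to the cosets of `F` of the elements of `W` are in `X` then `|F| dim W ≤ dim X`.
-/

set_option autoImplicit false
set_option linter.unusedSectionVars false

open scoped ComplexConjugate InnerProductSpace

noncomputable section

namespace SQ.A

open Singer

section gen
variable {X Y : Type}

theorem inner_push_left (p : X → Y) (hp : Function.Injective p) (u : L2 X) (f : L2 Y) :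
    ⟪push p hp u, f⟫_ℂ = ⟪u, pull p hp f⟫_ℂ := by
  rw [inner_eq, inner_eq]
  symm
  have hsupp : Function.support (fun y => conj (push p hp u y) * f y) ⊆ Set.range p := by
    intro y hy
    by_contra hc
    apply hy
    show conj (push p hp u y) * f y = 0
    rw [push_apply_of_notMem p hp u hc, map_zero, zero_mul]
  rw [← hp.tsum_eq hsupp]
  refine tsum_congr fun x => ?_
  rw [push_apply, pull_apply]

theorem norm_pull_le (p : X → Y) (hp : Function.Injective p) (f : L2 Y) : ‖pull p hp f‖ ≤ ‖f‖ := by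
  have h1 := norm_le_of_sq (f := pull p hp f) (g := f) zero_le_one (by
    rw [norm_sq_eq, norm_sq_eq, one_pow, one_mul]
    exact tsum_comp_le_tsum_of_inj (summable_sq f) (fun _ => by positivity) hp)
  rwa [one_mul] at h1

end gen

section restr
variable {K : Type} [Group K] (N : Subgroup K) {ι : Type}

/-- the embedding of the cosets of `F` -/
def emb (F : Finset (K ⧸ N)) (ι : Type) (x : N × (F × ι)) : K × ι :=
  ((x.1 : K) * (Quotient.out (x.2.1 : K ⧸ N))⁻¹, x.2.2)

theorem emb_inj (F : Finset (K ⧸ N)) (ι : Type) : Function.Injective (emb N F ι) := by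
  rintro ⟨n, q, i⟩ ⟨n', q', i'⟩ h
  have h1 : (n : K) * (Quotient.out (q : K ⧸ N))⁻¹ = (n' : K) * (Quotient.out (q' : K ⧸ N))⁻¹ := congrArg Prod.fst h
  have h2 : i = i' := congrArg Prod.snd h
  have h3 : (Quotient.out (q' : K ⧸ N))⁻¹ * Quotient.out (q : K ⧸ N) = ((n'⁻¹ * n : N) : K) := by
    have h4 : (Quotient.out (q' : K ⧸ N))⁻¹ = (n' : K)⁻¹ * ((n : K) * (Quotient.out (q : K ⧸ N))⁻¹) := by
      rw [h1, inv_mul_cancel_left]
    rw [h4, mul_assoc, mul_assoc, inv_mul_cancel, mul_one]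
    rfl
  have h5 : (q' : K ⧸ N) = q := by
    have h6 : (QuotientGroup.mk (Quotient.out (q' : K ⧸ N)) : K ⧸ N) = QuotientGroup.mk (Quotient.out (q : K ⧸ N)) := by
      rw [QuotientGroup.eq, h3]
      exact (n'⁻¹ * n).2
    have h7 : (QuotientGroup.mk (Quotient.out (q' : K ⧸ N)) : K ⧸ N) = q' := Quotient.out_eq' _
    have h8 : (QuotientGroup.mk (Quotient.out (q : K ⧸ N)) : K ⧸ N) = q := Quotient.out_eq' _
    rw [← h7, ← h8, h6]
  have h6 : q' = q := Subtype.ext h5
  subst h6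
  have h7 : n = n' := Subtype.ext (mul_right_cancel h1)
  rw [h7, h2]

/-- the restriction to the cosets of `F` -/
def rsF (F : Finset (K ⧸ N)) (ι : Type) : E K ι →L[ℂ] E N (F × ι) := pull (emb N F ι) (emb_inj N F ι)

theorem rsF_apply (F : Finset (K ⧸ N)) (f : E K ι) (n : N) (q : F) (i : ι) :
    rsF N F ι f (n, (q, i)) = f ((n : K) * (Quotient.out (q : K ⧸ N))⁻¹, i) := rfl

theorem push_del (F : Finset (K ⧸ N)) (q : F) (i : ι) :
    push (emb N F ι) (emb_inj N F ι) (del 1 (q, i)) = del (Quotient.out (q : K ⧸ N))⁻¹ i := by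
  refine ext_inner_right ℂ fun f => ?_
  rw [inner_push_left, inner_del_left, inner_del_left]
  show f (((1 : N) : K) * (Quotient.out (q : K ⧸ N))⁻¹, i) = _
  rw [OneMemClass.coe_one, one_mul]

/-- **restriction to finitely many cosets** -/
theorem vdim_restr [Fintype ι] (F : Finset (K ⧸ N)) {W : Submodule ℂ (E K ι)} (hW : Singer.Inv W)
    {X : Submodule ℂ (E N (F × ι))} (h : ∀ f ∈ W, rsF N F ι f ∈ X) : F.card * vdim W ≤ vdim X := by
  have hcl : ∀ f ∈ W.topologicalClosure, rsF N F ι f ∈ X.topologicalClosure := by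
    intro f hf
    have h1 : rsF N F ι f ∈ _root_.closure ((rsF N F ι : E K ι →L[ℂ] E N (F × ι)) '' (W : Set (E K ι))) :=
      image_closure_subset_closure_image (rsF N F ι).continuous ⟨f, hf, rfl⟩
    refine closure_mono ?_ h1
    rintro _ ⟨x, hx, rfl⟩
    exact h x hx
  have key : ∀ x : F × ι, ‖prj W (del (Quotient.out (x.1 : K ⧸ N))⁻¹ x.2)‖ ≤ ‖prj X (del (1 : N) x)‖ := by
    rintro ⟨q, i⟩
    show ‖prj W (del (Quotient.out (q : K ⧸ N))⁻¹ i)‖ ≤ ‖prj X (del (1 : N) (q, i))‖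
    rw [← push_del]
    set δ : E N (F × ι) := del (1 : N) (q, i)
    set w := prj W (push (emb N F ι) (emb_inj N F ι) δ) with hw
    have hwm : w ∈ W.topologicalClosure := prj_mem W _
    have h1 : ⟪w, w⟫_ℂ = ⟪prj X δ, rsF N F ι w⟫_ℂ := by
      have h2 : ⟪w, w⟫_ℂ = ⟪push (emb N F ι) (emb_inj N F ι) δ, w⟫_ℂ := by
        conv_lhs => rw [hw, prj_inner, prj_eq_of_mem hwm]
      rw [h2, inner_push_left, prj_inner, prj_eq_of_mem (hcl w hwm)]
      rfl
    have h3 : ‖w‖ ^ 2 ≤ ‖prj X δ‖ * ‖w‖ := by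
      have h4 : ‖w‖ ^ 2 = ‖⟪w, w⟫_ℂ‖ := by
        rw [inner_self_eq_norm_sq_to_K]
        simp
      rw [h4, h1]
      refine (norm_inner_le_norm _ _).trans ?_
      exact mul_le_mul_of_nonneg_left (norm_pull_le _ _ w) (norm_nonneg _)
    by_cases h0 : ‖w‖ = 0
    · rw [h0]
      exact norm_nonneg _
    · have h5 : 0 < ‖w‖ := lt_of_le_of_ne (norm_nonneg _) (Ne.symm h0)
      rw [sq] at h3
      exact le_of_mul_le_mul_right h3 h5
  have hinv : ∀ (g : K) (i : ι), ‖prj W (del g i)‖ = ‖prj W (del 1 i)‖ := by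
    intro g i
    have h1 : (del g i : E K ι) = lam g (del 1 i) := by rw [lam_del, mul_one]
    rw [h1, equi_prj hW, norm_lam]
  have h1 : (F.card : ℝ) * vdim W = ∑ x : F × ι, ‖prj W (del (Quotient.out (x.1 : K ⧸ N))⁻¹ x.2)‖ ^ 2 := by
    rw [Fintype.sum_prod_type]
    have h2 : ∀ q : F, ∑ i, ‖prj W (del (Quotient.out ((q, i) : F × ι).1.1)⁻¹ ((q, i) : F × ι).2)‖ ^ 2 = vdim W := by
      intro q
      unfold vdim
      exact Finset.sum_congr rfl fun i _ => by rw [hinv]
    rw [Finset.sum_congr rfl fun q _ => h2 q, Finset.sum_const, Finset.card_univ, Fintype.card_coe, nsmul_eq_mul]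
  rw [h1]
  unfold vdim
  refine Finset.sum_le_sum fun x _ => ?_
  exact pow_le_pow_left₀ (norm_nonneg _) (key x) 2

end restr

end SQ.A
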