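import Pool.Agent.SQ.A.Restr
import Pool.Agent.SQ.BO.Bound
import Pool.Agent.SQ.HH.Defs
import Pool.Agent.SQ.A.Rank

/-!
# SQ/A: the components of a matrix over the group ring with respect to the cosets of a subgroup

`cpt N p q r`: the component of `r` in the position `(p, q)`; `sysF`: the matrix of the components; `TA σ A`: the action of the matrix
`A` on the module induced from the skew field `D`.
-/

set_option autoImplicit false
set_option linter.unusedSectionVars false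

open scoped ComplexConjugate InnerProductSpace

noncomputable section

namespace SQ.A

open Singer Singer.Ord Pool.Agent.Helper18.SQ SQ.HH

section cpt
variable {K : Type} [Group K] (N : Subgroup K)

theorem out_mk (q : K ⧸ N) : (QuotientGroup.mk (Quotient.out q) : K ⧸ N) = q := Quotient.out_eq' _

theorem smul_mk (x a : K) : x • (QuotientGroup.mk a : K ⧸ N) = QuotientGroup.mk (x * a) := rfl

theorem inv_smul_iff (x : K) (p q : K ⧸ N) : x⁻¹ • p = q ↔ (Quotient.out p)⁻¹ * x * Quotient.out q ∈ N := by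
  conv_lhs => rw [← out_mk N p, ← out_mk N q, smul_mk, QuotientGroup.eq]
  rw [mul_inv_rev, inv_inv]

theorem cpt_inj (p q : K ⧸ N) : Function.Injective fun n : N => Quotient.out p * (n : K) * (Quotient.out q)⁻¹ := by
  intro a b h
  exact Subtype.ext (mul_left_cancel (mul_right_cancel h))

theorem cpt_smul (p q : K ⧸ N) (n : N) : (Quotient.out p * (n : K) * (Quotient.out q)⁻¹)⁻¹ • p = q := by
  rw [inv_smul_iff]
  have h : (Quotient.out p)⁻¹ * (Quotient.out p * (n : K) * (Quotient.out q)⁻¹) * Quotient.out q = n := by group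
  rw [h]
  exact n.2

theorem exists_cpt {p q : K ⧸ N} {x : K} (h : x⁻¹ • p = q) :
    ∃ n : N, Quotient.out p * (n : K) * (Quotient.out q)⁻¹ = x := by
  refine ⟨⟨_, (inv_smul_iff N x p q).1 h⟩, ?_⟩
  show Quotient.out p * ((Quotient.out p)⁻¹ * x * Quotient.out q) * (Quotient.out q)⁻¹ = x
  group

/-- the component in the position `(p, q)` of an element of the group ring -/
def cpt (p q : K ⧸ N) (r : MonoidAlgebra ℤ K) : MonoidAlgebra ℤ N :=
  MonoidAlgebra.ofCoeff (Finsupp.comapDomain (fun n : N => Quotient.out p * (n : K) * (Quotient.out q)⁻¹) r.coeff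
    (cpt_inj N p q).injOn)

theorem cpt_coeff (p q : K ⧸ N) (r : MonoidAlgebra ℤ K) (n : N) :
    (cpt N p q r).coeff n = r.coeff (Quotient.out p * (n : K) * (Quotient.out q)⁻¹) := rfl

theorem sum_cpt {M : Type*} [AddCommGroup M] (p : K ⧸ N) (r : MonoidAlgebra ℤ K) (F : Finset (K ⧸ N)) (Φ : K → M)
    (hF : ∀ x ∈ r.coeff.support, Φ x ≠ 0 → x⁻¹ • p ∈ F) :
    ∑ q : F, ∑ n ∈ (cpt N p q r).coeff.support, (cpt N p q r).coeff n •
        Φ (Quotient.out p * (n : K) * (Quotient.out (q : K ⧸ N))⁻¹) = ∑ x ∈ r.coeff.support, r.coeff x • Φ x := by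
  classical
  rw [Finset.sum_coe_sort F (fun q => ∑ n ∈ (cpt N p q r).coeff.support, (cpt N p q r).coeff n •
    Φ (Quotient.out p * (n : K) * (Quotient.out q)⁻¹)), Finset.sum_sigma']
  refine Finset.sum_of_injOn (fun z => Quotient.out p * (z.2 : K) * (Quotient.out z.1)⁻¹) ?_ ?_ ?_ ?_
  · rintro ⟨q, n⟩ _ ⟨q', n'⟩ _ h
    have h1 : Quotient.out p * (n : K) * (Quotient.out q)⁻¹ = Quotient.out p * (n' : K) * (Quotient.out q')⁻¹ := h
    have h2 : q = q' := by rw [← cpt_smul N p q n, h1, cpt_smul]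
    subst h2
    rw [cpt_inj N p q h1]
  · rintro ⟨q, n⟩ hz
    have h1 := (Finset.mem_sigma.1 hz).2
    rw [Finsupp.mem_support_iff, cpt_coeff] at h1
    exact Finsupp.mem_support_iff.2 h1
  · intro x hx hxn
    by_contra hne
    have h1 : Φ x ≠ 0 := fun h => hne (by rw [h, smul_zero])
    obtain ⟨n, hn⟩ := exists_cpt N (p := p) (x := x) rfl
    refine hxn ⟨⟨x⁻¹ • p, n⟩, ?_, hn⟩
    rw [Finset.mem_coe, Finset.mem_sigma]
    refine ⟨hF x hx h1, ?_⟩
    rw [Finsupp.mem_support_iff, cpt_coeff]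
    show r.coeff (Quotient.out p * (n : K) * (Quotient.out (x⁻¹ • p))⁻¹) ≠ 0
    rw [hn]
    exact Finsupp.mem_support_iff.1 hx
  · rintro ⟨q, n⟩ _
    rfl

/-- the matrix of the components -/
def sysF {κ ι : Type} (A : Matrix κ ι (MonoidAlgebra ℤ K)) (G F : Finset (K ⧸ N)) :
    Matrix (G × κ) (F × ι) (MonoidAlgebra ℤ N) :=
  Matrix.of fun a b => cpt N a.1 b.1 (A a.2 b.2)

end cpt

/-! ### square-summable solutions -/

section l2
variable {K : Type} [Group K]

theorem mem_cok_iff {κ ι : Type} [Fintype κ] [Fintype ι] (A : Matrix κ ι (MonoidAlgebra ℤ K)) (f : E K ι) :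
    f ∈ cok A ↔ ∀ g k, ∑ i, ∑ x ∈ (A k i).coeff.support, ((A k i).coeff x : ℂ) * f (g * x, i) = 0 := by
  constructor
  · intro h g k
    rw [← adj_hat_apply]
    have h1 : ContinuousLinearMap.adjoint (hat A) f = 0 := h
    rw [h1]
    rfl
  · intro h
    show ContinuousLinearMap.adjoint (hat A) f = 0
    ext ⟨g, k⟩
    rw [adj_hat_apply, h]
    rfl

variable (N : Subgroup K) {κ ι : Type} [Fintype κ] [Fintype ι]

theorem rsF_mem (A : Matrix κ ι (MonoidAlgebra ℤ K)) (G F : Finset (K ⧸ N))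
    (hG : ∀ p ∈ G, ∀ x ∈ supps A, x⁻¹ • p ∈ F) {f : E K ι} (hf : f ∈ cok A) : rsF N F ι f ∈ cok (sysF N A G F) := by
  rw [mem_cok_iff] at hf ⊢
  rintro n ⟨p, k⟩
  rw [Fintype.sum_prod_type_right, ← hf ((n : K) * (Quotient.out (p : K ⧸ N))⁻¹) k]
  refine Finset.sum_congr rfl fun i _ => ?_
  have h1 := sum_cpt N (p : K ⧸ N) (A k i) F (fun x => f ((n : K) * (Quotient.out (p : K ⧸ N))⁻¹ * x, i))
    (fun x hx _ => hG p p.2 x (mem_supps A hx))
  simp only [zsmul_eq_mul] at h1
  rw [← h1]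
  refine Finset.sum_congr rfl fun q _ => Finset.sum_congr rfl fun m _ => ?_
  have h2 : (rsF N F ι f) (n * m, (q, i)) =
      f ((n : K) * (Quotient.out (p : K ⧸ N))⁻¹ * (Quotient.out (p : K ⧸ N) * (m : K) * (Quotient.out (q : K ⧸ N))⁻¹), i) := by
    rw [rsF_apply]
    rw [Subgroup.coe_mul]
    group
  rw [h2]
  rfl

theorem inv_cok (A : Matrix κ ι (MonoidAlgebra ℤ K)) : Singer.Inv (cok A) := inv_ker (mat_hat A).equi.adjoint

theorem card_mul_vdim_cok (A : Matrix κ ι (MonoidAlgebra ℤ K)) (G F : Finset (K ⧸ N))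
    (hG : ∀ p ∈ G, ∀ x ∈ supps A, x⁻¹ • p ∈ F) : F.card * vdim (cok A) ≤ vdim (cok (sysF N A G F)) :=
  vdim_restr N F (inv_cok A) fun _ hf => rsF_mem N A G F hG hf

end l2

end SQ.A
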