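import Pool.Agent.SQ.A.Act

/-!
# SQ/A: the translations of the induced module by the quotient group

`Tw σ`: automorphisms of the skew field `D` which extend the conjugations of the normal subgroup `N` by the elements of `K`.
The right translation by `u` is a semilinear map of the module induced from `D` which commutes with the matrices over the group ring.
-/

set_option autoImplicit false
set_option linter.unusedSectionVars false

noncomputable section

namespace SQ.A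

open Singer Singer.Ord Module
open Pool.Agent.Helper18.SQ (lm cok supps mem_supps finrank_col)
open SQ.HH (coc)

section tw
variable {K : Type} [Group K] {N : Subgroup K} {D : Type} [DivisionRing D]

/-- endomorphisms of the skew field which extend the conjugations -/
structure Tw (σ : N →* Dˣ) where
  φ : K → D →+* D
  one : ∀ d, φ 1 d = d
  mul : ∀ u v d, φ (u * v) d = φ u (φ v d)
  grp : ∀ (u : K) (n n' : N), (n' : K) = u * n * u⁻¹ → φ u ((σ n : Dˣ) : D) = ((σ n' : Dˣ) : D)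

variable {σ : N →* Dˣ} (T : Tw σ)

theorem Tw.cancel (u : K) (d : D) : T.φ u⁻¹ (T.φ u d) = d := by
  rw [← T.mul, inv_mul_cancel, T.one]

theorem Tw.cancel' (u : K) (d : D) : T.φ u (T.φ u⁻¹ d) = d := by
  rw [← T.mul, mul_inv_cancel, T.one]

variable [N.Normal]

variable (N) in
/-- the cocycle of the right translation -/
def nu (p : K ⧸ N) (u : K) : N :=
  ⟨(Quotient.out p)⁻¹ * Quotient.out (p * (QuotientGroup.mk u)⁻¹) * u, by
    rw [← QuotientGroup.eq_one_iff, QuotientGroup.mk_mul, QuotientGroup.mk_mul, QuotientGroup.mk_inv, out_mk, out_mk]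
    group⟩

variable {ι κ : Type}

/-- the right translation -/
def rr (u : K) (y : K ⧸ N → ι → D) (p : K ⧸ N) (i : ι) : D :=
  ((σ (nu N p u) : Dˣ) : D) * T.φ u⁻¹ (y (p * (QuotientGroup.mk u)⁻¹) i)

theorem rr_rr (u : K) (y : K ⧸ N → ι → D) : rr T u⁻¹ (rr T u y) = y := by
  funext p i
  show ((σ (nu N p u⁻¹) : Dˣ) : D) * T.φ (u⁻¹)⁻¹ (((σ (nu N (p * (QuotientGroup.mk u⁻¹)⁻¹) u) : Dˣ) : D) *
    T.φ u⁻¹ (y (p * (QuotientGroup.mk u⁻¹)⁻¹ * (QuotientGroup.mk u)⁻¹) i)) = y p i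
  rw [inv_inv, map_mul, T.cancel', ← mul_assoc]
  have h0 : p * (QuotientGroup.mk u⁻¹ : K ⧸ N)⁻¹ * (QuotientGroup.mk u)⁻¹ = p := by
    rw [QuotientGroup.mk_inv]
    group
  rw [h0]
  have h1 : T.φ u ((σ (nu N (p * (QuotientGroup.mk u⁻¹)⁻¹) u) : Dˣ) : D) = ((σ ((nu N p u⁻¹)⁻¹) : Dˣ) : D) := by
    refine T.grp u _ _ ?_
    show ((Quotient.out p)⁻¹ * Quotient.out (p * (QuotientGroup.mk u⁻¹)⁻¹) * u⁻¹)⁻¹ =
      u * ((Quotient.out (p * (QuotientGroup.mk u⁻¹)⁻¹))⁻¹ *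
        Quotient.out (p * (QuotientGroup.mk u⁻¹ : K ⧸ N)⁻¹ * (QuotientGroup.mk u)⁻¹) * u) * u⁻¹
    rw [h0]
    group
  rw [h1, ← Units.val_mul, ← map_mul, mul_inv_cancel, map_one, Units.val_one, one_mul]

theorem smul_mul (x : K) (p q : K ⧸ N) : x • (p * q) = (x • p) * q := by
  induction p using QuotientGroup.induction_on with
  | H a =>
    induction q using QuotientGroup.induction_on with
    | H b =>
      show (QuotientGroup.mk (x * (a * b)) : K ⧸ N) = QuotientGroup.mk (x * a * b)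
      rw [mul_assoc]

variable [Fintype ι] [Fintype κ]

theorem tf_rr (A : Matrix κ ι (MonoidAlgebra ℤ K)) (u : K) (y : K ⧸ N → ι → D) :
    tf σ A (rr T u y) = rr T u (tf σ A y) := by
  funext p k
  show ∑ i, ∑ x ∈ (A k i).coeff.support, (A k i).coeff x • (((σ (coc N x (x⁻¹ • p)) : Dˣ) : D) *
      (((σ (nu N (x⁻¹ • p) u) : Dˣ) : D) * T.φ u⁻¹ (y ((x⁻¹ • p) * (QuotientGroup.mk u)⁻¹) i))) =
    ((σ (nu N p u) : Dˣ) : D) * T.φ u⁻¹ (∑ i, ∑ x ∈ (A k i).coeff.support, (A k i).coeff x •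
      (((σ (coc N x (x⁻¹ • (p * (QuotientGroup.mk u)⁻¹))) : Dˣ) : D) * y (x⁻¹ • (p * (QuotientGroup.mk u)⁻¹)) i))
  rw [map_sum, Finset.mul_sum]
  refine Finset.sum_congr rfl fun i _ => ?_
  rw [map_sum, Finset.mul_sum]
  refine Finset.sum_congr rfl fun x _ => ?_
  rw [map_zsmul, mul_smul_comm, map_mul, ← mul_assoc, ← mul_assoc, smul_mul x⁻¹ p (QuotientGroup.mk u)⁻¹]
  congr 2
  set q : K ⧸ N := (x⁻¹ • p) * (QuotientGroup.mk u)⁻¹ with hq
  have hxp : x • (x⁻¹ • p) = p := smul_inv_smul x p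
  have hxq : x • q = p * (QuotientGroup.mk u)⁻¹ := by rw [hq, smul_mul, hxp]
  have h1 : T.φ u⁻¹ ((σ (coc N x q) : Dˣ) : D) =
      ((σ ((nu N p u)⁻¹ * coc N x (x⁻¹ • p) * nu N (x⁻¹ • p) u) : Dˣ) : D) := by
    refine T.grp u⁻¹ _ _ ?_
    show ((Quotient.out p)⁻¹ * Quotient.out (p * (QuotientGroup.mk u)⁻¹) * u)⁻¹ *
        ((Quotient.out (x • (x⁻¹ • p)))⁻¹ * (x * Quotient.out (x⁻¹ • p))) *
        ((Quotient.out (x⁻¹ • p))⁻¹ * Quotient.out q * u) =
      u⁻¹ * ((Quotient.out (x • q))⁻¹ * (x * Quotient.out q)) * (u⁻¹)⁻¹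
    rw [hxp, hxq]
    group
  rw [h1, ← Units.val_mul, ← map_mul, ← Units.val_mul, ← map_mul]
  congr 2
  rw [mul_assoc (nu N p u)⁻¹, mul_inv_cancel_left]

/-- the right translation of functions with finite support -/
def RR (u : K) (y : K ⧸ N →₀ (ι → D)) : K ⧸ N →₀ (ι → D) :=
  Finsupp.onFinset (y.support.map (mulRightEmbedding (QuotientGroup.mk u))) (rr T u y) (by
    intro p hp
    by_contra hne
    apply hp
    funext i
    have h1 : y (p * (QuotientGroup.mk u)⁻¹) = 0 := by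
      by_contra h0
      refine hne (Finset.mem_map.2 ⟨_, Finsupp.mem_support_iff.2 h0, ?_⟩)
      show p * (QuotientGroup.mk u)⁻¹ * QuotientGroup.mk u = p
      rw [inv_mul_cancel_right]
    show ((σ (nu N p u) : Dˣ) : D) * T.φ u⁻¹ (y (p * (QuotientGroup.mk u)⁻¹) i) = 0
    rw [h1, Pi.zero_apply, map_zero, mul_zero])

theorem RR_apply (u : K) (y : K ⧸ N →₀ (ι → D)) (p : K ⧸ N) (i : ι) : RR T u y p i =
    ((σ (nu N p u) : Dˣ) : D) * T.φ u⁻¹ (y (p * (QuotientGroup.mk u)⁻¹) i) := rfl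

theorem RR_RR (u : K) (y : K ⧸ N →₀ (ι → D)) : RR T u⁻¹ (RR T u y) = y :=
  Finsupp.ext fun p => congrFun (rr_rr T u y) p

theorem RR_RR' (u : K) (y : K ⧸ N →₀ (ι → D)) : RR T u (RR T u⁻¹ y) = y := by
  have h := RR_RR T u⁻¹ y
  rwa [inv_inv] at h

theorem RR_add (u : K) (y z : K ⧸ N →₀ (ι → D)) : RR T u (y + z) = RR T u y + RR T u z := by
  ext p i
  rw [Finsupp.add_apply, Pi.add_apply, RR_apply, RR_apply, RR_apply, Finsupp.add_apply, Pi.add_apply, map_add, mul_add]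

theorem RR_zero (u : K) : RR T u (0 : K ⧸ N →₀ (ι → D)) = 0 := by
  ext p i
  rw [RR_apply, Finsupp.zero_apply, Finsupp.zero_apply, Pi.zero_apply, map_zero, mul_zero]

theorem RR_smul (u : K) (a : Dᵐᵒᵖ) (y : K ⧸ N →₀ (ι → D)) :
    RR T u (a • y) = MulOpposite.op (T.φ u⁻¹ a.unop) • RR T u y := by
  ext p i
  rw [Finsupp.smul_apply, Pi.smul_apply, RR_apply, RR_apply, Finsupp.smul_apply, Pi.smul_apply]
  show ((σ (nu N p u) : Dˣ) : D) * T.φ u⁻¹ (y (p * (QuotientGroup.mk u)⁻¹) i * a.unop) =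
    ((σ (nu N p u) : Dˣ) : D) * T.φ u⁻¹ (y (p * (QuotientGroup.mk u)⁻¹) i) * T.φ u⁻¹ a.unop
  rw [map_mul, mul_assoc]

theorem TA_RR (A : Matrix κ ι (MonoidAlgebra ℤ K)) (u : K) (y : K ⧸ N →₀ (ι → D)) :
    TA σ A (RR T u y) = RR T u (TA σ A y) :=
  Finsupp.ext fun p => congrFun (tf_rr T A u y) p

theorem RR_supp {u : K} {E : Finset (K ⧸ N)} {y : K ⧸ N →₀ (ι → D)} (h : ∀ q ∉ E, y q = 0) :
    ∀ q ∉ E.map (mulRightEmbedding (QuotientGroup.mk u)), RR T u y q = 0 := by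
  intro q hq
  funext i
  have h1 : y (q * (QuotientGroup.mk u)⁻¹) = 0 := h _ fun h' => hq (Finset.mem_map.2 ⟨_, h', inv_mul_cancel_right q _⟩)
  rw [RR_apply, h1, Pi.zero_apply, map_zero, mul_zero]

theorem RR_supp' {u : K} {E : Finset (K ⧸ N)} {y : K ⧸ N →₀ (ι → D)}
    (h : ∀ q ∉ E.map (mulRightEmbedding (QuotientGroup.mk u)), y q = 0) : ∀ q ∉ E, RR T u⁻¹ y q = 0 := by
  intro q hq
  funext i
  have h1 : y (q * (QuotientGroup.mk u⁻¹)⁻¹) = 0 := by
    refine h _ fun h' => ?_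
    rw [QuotientGroup.mk_inv, inv_inv] at h'
    obtain ⟨q', hq', he⟩ := Finset.mem_map.1 h'
    have h2 : q' = q := mul_right_cancel (b := (QuotientGroup.mk u : K ⧸ N)) he
    exact hq (h2 ▸ hq')
  rw [RR_apply, h1, Pi.zero_apply, map_zero, mul_zero]

theorem Zk_RR (A : Matrix κ ι (MonoidAlgebra ℤ K)) {u : K} {E : Finset (K ⧸ N)} {y : K ⧸ N →₀ (ι → D)}
    (hy : y ∈ Zk (TA σ A) E) : RR T u y ∈ Zk (TA σ A) (E.map (mulRightEmbedding (QuotientGroup.mk u))) := by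
  rw [mem_Zk] at hy ⊢
  exact ⟨by rw [TA_RR, hy.1, RR_zero], RR_supp T hy.2⟩

theorem Zk_RR' (A : Matrix κ ι (MonoidAlgebra ℤ K)) {u : K} {E : Finset (K ⧸ N)} {y : K ⧸ N →₀ (ι → D)}
    (hy : y ∈ Zk (TA σ A) (E.map (mulRightEmbedding (QuotientGroup.mk u)))) : RR T u⁻¹ y ∈ Zk (TA σ A) E := by
  rw [mem_Zk] at hy ⊢
  exact ⟨by rw [TA_RR, hy.1, RR_zero], RR_supp' T hy.2⟩

include T in
/-- invariance of the dimension of the kernel on finite sets under translations -/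
theorem finrank_Zk_le (A : Matrix κ ι (MonoidAlgebra ℤ K)) (E : Finset (K ⧸ N)) (t : K ⧸ N) :
    finrank Dᵐᵒᵖ (Zk (TA σ A) E) ≤ finrank Dᵐᵒᵖ (Zk (TA σ A) (E.map (mulRightEmbedding t))) := by
  obtain ⟨u, rfl⟩ := QuotientGroup.mk_surjective t
  let b := Module.finBasis Dᵐᵒᵖ (Zk (TA σ A) E)
  let J : Zk (TA σ A) E →+ Zk (TA σ A) (E.map (mulRightEmbedding (QuotientGroup.mk u))) :=
    { toFun := fun y => ⟨RR T u y.1, Zk_RR T A y.2⟩
      map_zero' := Subtype.ext (RR_zero T u)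
      map_add' := fun y z => Subtype.ext (RR_add T u y.1 z.1) }
  have h1 : LinearIndependent Dᵐᵒᵖ (J ∘ b) := by
    refine b.linearIndependent.map_of_injective_injective (fun a => MulOpposite.op (T.φ u a.unop)) J ?_ ?_ ?_
    · intro a ha
      have h2 : T.φ u a.unop = 0 := MulOpposite.op_injective ha
      have h3 : a.unop = 0 := by
        rw [← T.cancel u a.unop, h2, map_zero]
      exact MulOpposite.unop_injective h3
    · intro y hy
      apply Subtype.ext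
      have h2 : RR T u y.1 = 0 := congrArg Subtype.val hy
      rw [← RR_RR T u y.1, h2, RR_zero]
      rfl
    · intro a y
      apply Subtype.ext
      show RR T u (MulOpposite.op (T.φ u a.unop) • y.1) = a • RR T u y.1
      rw [RR_smul, MulOpposite.unop_op, T.cancel, MulOpposite.op_unop]
  have h2 := h1.fintype_card_le_finrank
  rwa [Fintype.card_fin] at h2

variable {μ : Type} [Fintype μ]

include T in
/-- the kernels are images of finite sets, uniformly under the translations -/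
theorem exists_Zk_le (A : Matrix κ ι (MonoidAlgebra ℤ K)) (B : Matrix ι μ (MonoidAlgebra ℤ K))
    (hex : ∀ y : K ⧸ N →₀ (ι → D), TA σ A y = 0 → ∃ z : K ⧸ N →₀ (μ → D), TA σ B z = y) (E : Finset (K ⧸ N)) :
    ∃ E' : Finset (K ⧸ N), ∀ t : K ⧸ N, Zk (TA σ A) (E.map (mulRightEmbedding t)) ≤
      (Finsupp.supported (μ → D) Dᵐᵒᵖ ((E'.map (mulRightEmbedding t) : Finset (K ⧸ N)) : Set (K ⧸ N))).map (TA σ B) := by
  classical
  let b := Module.finBasis Dᵐᵒᵖ (Zk (TA σ A) E)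
  choose z hz using fun j => hex (b j).1 ((mem_Zk _ _ _).1 (b j).2).1
  let E' : Finset (K ⧸ N) := Finset.univ.biUnion fun j => (z j).support
  have h0 : ∀ y ∈ Zk (TA σ A) E, ∃ w : K ⧸ N →₀ (μ → D), (∀ q ∉ E', w q = 0) ∧ TA σ B w = y := by
    intro y hy
    have h1 := b.sum_repr ⟨y, hy⟩
    refine ⟨∑ j, b.repr ⟨y, hy⟩ j • z j, fun q hq => ?_, ?_⟩
    · rw [Finsupp.finsetSum_apply]
      refine Finset.sum_eq_zero fun j _ => ?_
      rw [Finsupp.smul_apply]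
      have h2 : z j q = 0 := by
        by_contra h
        exact hq (Finset.mem_biUnion.2 ⟨j, Finset.mem_univ _, Finsupp.mem_support_iff.2 h⟩)
      rw [h2, smul_zero]
    · rw [map_sum]
      have h2 : ((∑ j, b.repr ⟨y, hy⟩ j • b j : Zk (TA σ A) E) : K ⧸ N →₀ (ι → D)) = y := congrArg Subtype.val h1
      rw [AddSubmonoidClass.coe_finsetSum] at h2
      refine Eq.trans (Finset.sum_congr rfl fun j _ => ?_) h2
      rw [map_smul, hz]
      rfl
  refine ⟨E', fun t y hy => ?_⟩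
  obtain ⟨u, rfl⟩ := QuotientGroup.mk_surjective t
  obtain ⟨w, hw, hwy⟩ := h0 _ (Zk_RR' T A hy)
  refine ⟨RR T u w, ?_, ?_⟩
  · rw [SetLike.mem_coe, Finsupp.mem_supported']
    exact RR_supp T hw
  · rw [TA_RR, hwy, RR_RR']

end tw

end SQ.A
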