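import Pool.Agent.Cm.Bet
import Pool.Agent.SQ.A.Emb

/-!
# SQ/A: a class of groups without `ℓ²`-homology above the degree `n / 2`
-/

set_option autoImplicit false

namespace SQ.A

open Singer CubeComplex
open SQ.V (InClass Amenable)

/-- The class of groups `Upper n`.
* `base`: it contains every group `Γ` of type `FP_∞` with a normal subgroup `N` in the class `InClass`, such that `Γ / N` is
  amenable and `N` is isomorphic to a subgroup (of any index) of a Poincare duality group of dimension `n`.
* `supergroup`, `subgroup`: it contains `Γ` if it contains a group which is isomorphic to a subgroup of finite index of `Γ`,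
  or a group of type `FP_∞` which contains `Γ` as a subgroup of finite index.
* `mirror`: let `Γ` act on a `CAT(0)` cube complex (given by its one-skeleton, the median graph `M`; the complex may be
  locally infinite and the action need not be proper) with finitely many orbits of cubes and stabilizers of type `FP_∞`; if
  the mirrored groups of the vertices `x 0, ..., x (m - 1)`, which meet all orbits, are in the class, then so is `Γ`. -/
inductive Upper (n : ℕ) : ∀ (Γ : Type) [Group Γ], Prop
  | base {Γ P : Type} [Group Γ] [Group P] (N : Subgroup Γ) [N.Normal] (f : N →* P) : IsPD n P → Function.Injective f →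
      InClass N → Amenable (Γ ⧸ N) → Nonempty (FinRes Γ) → Upper n Γ
  | supergroup {Γ H : Type} [Group Γ] [Group H] (j : H →* Γ) : Function.Injective j → j.range.FiniteIndex →
      Upper n H → Upper n Γ
  | subgroup {Γ H : Type} [Group Γ] [Group H] (j : Γ →* H) : Function.Injective j → j.range.FiniteIndex →
      Nonempty (FinRes H) → Upper n H → Upper n Γ
  | mirror {Γ X : Type} [Group Γ] [MulAction Γ X] {m : ℕ} (M : SimpleGraph X) (x : Fin m → X) : CubicalAction Γ M →
      (∀ v, ∃ (j : Fin m) (g : Γ), g • x j = v) → (∀ j, Upper n (MirGroup Γ M (x j))) → Upper n Γ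

/-- the groups of the class have no `ℓ²`-homology above the degree `n / 2` -/
theorem Upper.h_eq {n : ℕ} {Γ : Type} [Group Γ] (h : Upper n Γ) {i : ℕ} (hi : n < 2 * i) (S : Res.{0} Γ) :
    S.toPreRes.toHC.h i = 0 := by
  induction h with
  | base N f hP hf hN hQ R =>
    obtain ⟨R⟩ := R
    rw [Cm.B.h_eq_betti S R]
    exact (R.betti_eq_zero_iff i).2 (vanE_emb hP N f hf ((SQ.V.cls_of hN).p SQ.U.stmtCoef) hQ R i hi)
  | supergroup j hj hf _ ih =>
    obtain ⟨T, hT⟩ := Cm.B.exists_trv_index j hj hf
    have h1 := ih (T.res S)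
    rw [T.h_res S i, hT] at h1
    have h2 : (j.range.index : ℝ) ≠ 0 := by
      have h3 : j.range.index ≠ 0 := Subgroup.FiniteIndex.index_ne_zero
      exact_mod_cast h3
    rcases mul_eq_zero.1 h1 with h3 | h3
    · exact absurd h3 h2
    · exact h3
  | subgroup j hj hf R _ ih =>
    obtain ⟨R⟩ := R
    obtain ⟨T, hT⟩ := Cm.B.exists_trv_index j hj hf
    have h1 := ih R.toRes
    rw [Res.h_eq S (T.res R.toRes), T.h_res R.toRes i, h1, mul_zero]
  | mirror M x hM hx _ ih =>
    obtain ⟨I, SM, h1⟩ := Cm.cm_le hM x hx
    have h2 : ∑ j : I, (SM j).toHC.h i = 0 := Finset.sum_eq_zero fun j _ => ih j.1 (SM j)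
    have h3 := h1 S i
    rw [h2] at h3
    exact le_antisymm h3 (HC.h_nonneg _ _)

/-- the `ℓ²`-Betti numbers of the groups of the class -/
theorem Upper.betti_eq {n : ℕ} {Γ : Type} [Group Γ] (h : Upper n Γ) (R : FinRes Γ) {i : ℕ} (hi : n < 2 * i) :
    R.betti i = 0 := by
  rw [← Cm.B.h_eq_betti R.toRes R]
  exact h.h_eq hi _

/-- the Poincare duality groups of the class -/
theorem Upper.betti_pd {n m : ℕ} {Γ : Type} [Group Γ] (h : Upper n Γ) (hm : IsPD m Γ) (R : FinRes Γ) {i : ℕ}
    (hi : n < 2 * i ∨ 2 * i + n < 2 * m) : R.betti i = 0 := by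
  rcases hi with h1 | h1
  · exact h.betti_eq R h1
  · rw [Cm.B.betti_dual R hm (show i + (m - i) = m by omega)]
    exact h.betti_eq R (by omega)

end SQ.A
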