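import Pool.Agent.SQ.A.Twist
import Pool.Agent.SQ.BO.Van

/-!
# SQ/A: the rank inequality for the extensions by amenable groups

`vdim_add_le`: if the complex of the induced module is exact at `A`, `B` then `vdim (cok A) + vdim (cok B)` is at most the number
of the columns of `B`; `vanE_of_exH`: if the homology of `K` with coefficients in the module induced from the skew field `D` vanishes
in a positive degree, then so does the `ℓ²`-homology.
-/

set_option autoImplicit false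
set_option linter.unusedSectionVars false

noncomputable section

namespace SQ.A

open Singer Singer.Ord Module
open Pool.Agent.Helper18.SQ (lm cok supps mem_supps finrank_col adj_hat_apply cok_eq_solL vdim_ker_hat betti_vdim)
open SQ.HH (coc indr)

open Classical in
/-- the number of the elements of `F` which leave `F` under the translation by `l` -/
def bdc {Q : Type} [Group Q] (F : Finset Q) (l : Q) : ℕ := (F.filter fun x => l * x ∉ F).card

/-- Foelner's condition for the left translations -/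
def LFoe (Q : Type) [Group Q] : Prop :=
  ∀ (L : Finset Q) (m : ℕ), ∃ F : Finset Q, F.Nonempty ∧ ∀ l ∈ L, (m + 1) * bdc F l ≤ F.card

/-- the sum of the boundary terms -/
theorem sum_bd_le {Q : Type} [Group Q] {I : Type} (J : Finset I) (g : I → Q) (F : Finset Q) (m w : ℕ)
    (h : ∀ i ∈ J, (m + 1) * bdc F (g i) ≤ F.card) (hw : w * J.card ≤ m + 1) : w * ∑ i ∈ J, bdc F (g i) ≤ F.card := by
  have h1 : (m + 1) * ∑ i ∈ J, bdc F (g i) ≤ J.card * F.card := by
    rw [Finset.mul_sum]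
    exact (Finset.sum_le_sum h).trans (by rw [Finset.sum_const, smul_eq_mul])
  refine Nat.le_of_mul_le_mul_left ?_ (Nat.succ_pos m)
  calc (m + 1) * (w * ∑ i ∈ J, bdc F (g i)) = w * ((m + 1) * ∑ i ∈ J, bdc F (g i)) := by ring
    _ ≤ w * (J.card * F.card) := Nat.mul_le_mul_left _ h1
    _ = (w * J.card) * F.card := by ring
    _ ≤ (m + 1) * F.card := Nat.mul_le_mul_right _ hw

section main
variable {K : Type} [Group K] {N : Subgroup K} [N.Normal] {D : Type} [DivisionRing D] {σ : N →* Dˣ}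
  {κ ι μ : Type} [Fintype κ] [Fintype ι] [Fintype μ]

instance finDim_pi (ι : Type) [Fintype ι] : FiniteDimensional Dᵐᵒᵖ (ι → D) := inferInstance

/-- the comparison of the dimensions on a finite set -/
theorem card_mul_vdim_le (hU : ∀ {κ ι : Type} [Fintype κ] [Fintype ι] (A : Matrix κ ι (MonoidAlgebra ℤ N)),
      vdim (cok A) ≤ finrank Dᵐᵒᵖ (LinearMap.ker (cbD σ A))) (A : Matrix κ ι (MonoidAlgebra ℤ K)) (F : Finset (K ⧸ N)) :
    F.card * vdim (cok A) ≤ finrank Dᵐᵒᵖ (Zk (TA σ A) F) +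
      Fintype.card κ * ((∑ z ∈ supps A ×ˢ supps A, bdc F (QuotientGroup.mk (z.2⁻¹ * z.1) : K ⧸ N) : ℕ) : ℝ) := by
  classical
  have h1 := card_mul_vdim_cok N A (inn A F) F fun p hp x hx => (Finset.mem_filter.1 hp).2 x hx
  refine (h1.trans (hU (sysF N A (inn A F) F))).trans ?_
  have h2 : (nb A F \ inn A F).card ≤ ∑ z ∈ supps A ×ˢ supps A, bdc F (QuotientGroup.mk (z.2⁻¹ * z.1) : K ⧸ N) :=
    (card_outer_le A F).trans (le_of_eq (Finset.sum_congr rfl fun z _ => by
      unfold bdc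
      congr!))
  have h3 := finrank_sysF_le σ A F
  have h4 : finrank Dᵐᵒᵖ (LinearMap.ker (cbD σ (sysF N A (inn A F) F))) ≤ finrank Dᵐᵒᵖ (Zk (TA σ A) F) +
      Fintype.card κ * ∑ z ∈ supps A ×ˢ supps A, bdc F (QuotientGroup.mk (z.2⁻¹ * z.1) : K ⧸ N) :=
    h3.trans (Nat.add_le_add_left (Nat.mul_le_mul_left _ h2) _)
  exact_mod_cast h4

theorem rank_main' {Q : Type} [Group Q] {D : Type} [DivisionRing D] {V₀ V₁ V₂ : Type} [AddCommGroup V₀] [Module D V₀]
    [AddCommGroup V₁] [Module D V₁] [FiniteDimensional D V₁] [AddCommGroup V₂] [Module D V₂] [FiniteDimensional D V₂]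
    (A : (Q →₀ V₁) →ₗ[D] V₀) (B : (Q →₀ V₂) →ₗ[D] (Q →₀ V₁))
    (h1 : ∀ (E : Finset Q) (t : Q), finrank D (Zk A E) ≤ finrank D (Zk A (E.map (mulRightEmbedding t))))
    (h2 : ∀ E : Finset Q, ∃ E' : Finset Q, ∀ t : Q, Zk A (E.map (mulRightEmbedding t)) ≤
      (Finsupp.supported V₂ D ((E'.map (mulRightEmbedding t) : Finset Q) : Set Q)).map B) (k : ℕ) :
    ∃ (L : Finset Q) (C : ℕ), ∀ F : Finset Q, k * (finrank D (Zk A F) + finrank D (Zk B F)) ≤
      k * (finrank D V₂ * F.card) + F.card + C * ∑ l ∈ L, bdc F l := rank_main A B h1 h2 k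

/-- **the rank inequality** -/
theorem vdim_add_le (T : Tw σ) (hU : ∀ {κ ι : Type} [Fintype κ] [Fintype ι] (A : Matrix κ ι (MonoidAlgebra ℤ N)),
      vdim (cok A) ≤ finrank Dᵐᵒᵖ (LinearMap.ker (cbD σ A))) (hF : LFoe (K ⧸ N))
    (A : Matrix κ ι (MonoidAlgebra ℤ K)) (B : Matrix ι μ (MonoidAlgebra ℤ K))
    (hex : ∀ y : K ⧸ N →₀ (ι → D), TA σ A y = 0 → ∃ z : K ⧸ N →₀ (μ → D), TA σ B z = y) :
    vdim (cok A) + vdim (cok B) ≤ Fintype.card μ := by
  classical
  by_contra hcon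
  rw [not_le] at hcon
  obtain ⟨k, hk⟩ := exists_nat_gt (4 / (vdim (cok A) + vdim (cok B) - Fintype.card μ))
  have hpos : 0 < vdim (cok A) + vdim (cok B) - Fintype.card μ := by linarith
  rw [div_lt_iff₀ hpos] at hk
  obtain ⟨L, C, hLC⟩ := rank_main' (TA σ A) (TA σ B) (finrank_Zk_le T A) (exists_Zk_le T A B hex) k
  let gz : K × K → K ⧸ N := fun z => QuotientGroup.mk (z.2⁻¹ * z.1)
  set m := C * L.card + k * Fintype.card κ * (supps A ×ˢ supps A).card + k * Fintype.card ι * (supps B ×ˢ supps B).card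
    with hm
  obtain ⟨F, hFne, hFb⟩ := hF (L ∪ (supps A ×ˢ supps A).image gz ∪ (supps B ×ˢ supps B).image gz) m
  have b1 : C * ∑ l ∈ L, bdc F l ≤ F.card :=
    sum_bd_le L id F m C (fun l hl => hFb l (Finset.mem_union_left _ (Finset.mem_union_left _ hl))) (by omega)
  have b2 : k * Fintype.card κ * ∑ z ∈ supps A ×ˢ supps A, bdc F (QuotientGroup.mk (z.2⁻¹ * z.1) : K ⧸ N) ≤ F.card :=
    sum_bd_le _ gz F m (k * Fintype.card κ) (fun z hz => hFb _ (Finset.mem_union_left _
      (Finset.mem_union_right _ (Finset.mem_image_of_mem gz hz)))) (by omega)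
  have b3 : k * Fintype.card ι * ∑ z ∈ supps B ×ˢ supps B, bdc F (QuotientGroup.mk (z.2⁻¹ * z.1) : K ⧸ N) ≤ F.card :=
    sum_bd_le _ gz F m (k * Fintype.card ι) (fun z hz => hFb _ (Finset.mem_union_right _
      (Finset.mem_image_of_mem gz hz))) (by omega)
  have c1 := card_mul_vdim_le hU A F
  have c2 := card_mul_vdim_le hU B F
  have c3 := hLC F
  have hcard : (0 : ℝ) < F.card := by exact_mod_cast hFne.card_pos
  have hμ : finrank Dᵐᵒᵖ (μ → D) = Fintype.card μ := finrank_col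
  rw [hμ] at c3
  have d1 := (Nat.cast_le (α := ℝ)).2 b1
  have d2 := (Nat.cast_le (α := ℝ)).2 b2
  have d3 := (Nat.cast_le (α := ℝ)).2 b3
  have e3 := (Nat.cast_le (α := ℝ)).2 c3
  generalize ∑ l ∈ L, bdc F l = s1 at *
  generalize ∑ z ∈ supps A ×ˢ supps A, bdc F (QuotientGroup.mk (z.2⁻¹ * z.1) : K ⧸ N) = s2 at *
  generalize ∑ z ∈ supps B ×ˢ supps B, bdc F (QuotientGroup.mk (z.2⁻¹ * z.1) : K ⧸ N) = s3 at *
  push_cast at c1 c2 d1 d2 d3 e3
  have f1 := mul_le_mul_of_nonneg_left c1 (Nat.cast_nonneg (α := ℝ) k)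
  have f2 := mul_le_mul_of_nonneg_left c2 (Nat.cast_nonneg (α := ℝ) k)
  have g2 : F.card * ((k : ℝ) * (vdim (cok A) + vdim (cok B) - Fintype.card μ)) ≤ F.card * 4 := by
    nlinarith
  have g3 := le_of_mul_le_mul_left g2 hcard
  linarith

end main

end SQ.A
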